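import Pool.Agent.Helper54.SigmaDens.Data

/-!
# The numerical lower bound
-/

namespace Pool.Agent.Helper54.SigmaDens

open Finset Filter Topology ArithmeticFunction

/-- The set of the problem. -/
def S : Set ℕ := {s | 2 ≤ s ∧ ∃ q, 1 ≤ q ∧ q < s ∧ sigma 1 s = sigma 1 q + sigma 1 (s - q)}

lemma closed {d q m : ℕ} (h1 : 1 ≤ q) (h2 : q < d) (h : sigma 1 d = sigma 1 q + sigma 1 (d - q))
    (hm : m ≠ 0) (hco : Nat.Coprime m (q * (d - q) * d)) : d * m ∈ S := by
  have hcd : Nat.Coprime d m := (Nat.Coprime.coprime_mul_left_right hco).symm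
  have hcq : Nat.Coprime q m :=
    (Nat.Coprime.coprime_mul_right_right (Nat.Coprime.coprime_mul_right_right hco)).symm
  have hcr : Nat.Coprime (d - q) m :=
    (Nat.Coprime.coprime_mul_left_right (Nat.Coprime.coprime_mul_right_right hco)).symm
  have hm1 : 1 ≤ m := Nat.pos_of_ne_zero hm
  refine ⟨?_, q * m, ?_, ?_, ?_⟩
  · nlinarith
  · exact Nat.mul_pos h1 hm1
  · exact Nat.mul_lt_mul_of_pos_right h2 hm1
  · rw [← Nat.sub_mul, isMultiplicative_sigma.map_mul_of_coprime hcd,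
      isMultiplicative_sigma.map_mul_of_coprime hcq, isMultiplicative_sigma.map_mul_of_coprime hcr,
      h]
    ring

/-- The class of a leaf. -/
def Leaf.cls (l : Leaf) : Set ℕ := {n | ∃ m, m ≠ 0 ∧ Nat.Coprime m l.R ∧ n = l.e * m}

lemma sig_eq (ps : List ℕ) : ∀ n, (∀ p ∈ ps, p.Prime) → ps.Nodup → n ≠ 0 → n ∣ ps.prod ^ 20 →
    sigma 1 n = sig ps n := by
  induction ps with
  | nil =>
    intro n _ _ _ hn
    simp only [List.prod_nil, one_pow, Nat.dvd_one] at hn
    subst hn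
    simp [sig]
  | cons p ps ih =>
    intro n hp hnd hn0 hn
    rw [List.nodup_cons] at hnd
    have hpp : p.Prime := hp p (by simp)
    have hps : ∀ q ∈ ps, q.Prime := fun q hq => hp q (by simp [hq])
    have hcop : ∀ q ∈ ps, Nat.Coprime p q := fun q hq =>
      (Nat.coprime_primes hpp (hps q hq)).2 (fun h => hnd.1 (h ▸ hq))
    have hcopR : Nat.Coprime p ps.prod := Nat.coprime_list_prod_right_iff.2 hcop
    rw [List.prod_cons, mul_pow] at hn
    -- split off the `p`-part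
    set a := Nat.gcd n (p ^ 20) with ha
    set b := Nat.gcd n (ps.prod ^ 20) with hb
    have hab : n = a * b := by
      have := Nat.Coprime.gcd_mul n (Nat.Coprime.pow 20 20 hcopR)
      rw [Nat.gcd_eq_left hn] at this
      exact this
    have hcab : Nat.Coprime a b := Nat.Coprime.coprime_dvd_left (Nat.gcd_dvd_right _ _)
      (Nat.Coprime.coprime_dvd_right (Nat.gcd_dvd_right _ _) (Nat.Coprime.pow 20 20 hcopR))
    have hb0 : b ≠ 0 := fun h => hn0 (by rw [hab, h, mul_zero])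
    have hbR : b ∣ ps.prod ^ 20 := Nat.gcd_dvd_right _ _
    obtain ⟨j, hj, haj⟩ := (Nat.dvd_prime_pow hpp).1 (show a ∣ p ^ 20 from Nat.gcd_dvd_right _ _)
    have h1 : sigma 1 a = (a * p - 1) / (p - 1) := by
      rw [haj, sigma_one_apply_prime_pow hpp, Nat.geomSum_eq hpp.two_le, pow_succ]
    have h2 := ih b hps hnd.2 hb0 hbR
    have h3 : sig ps b = sig ps n := by
      unfold sig
      congr 1
      refine List.map_congr_left fun q hq => ?_
      have hcaq : Nat.Coprime a (q ^ 20) := Nat.Coprime.coprime_dvd_left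
        (Nat.gcd_dvd_right _ _) (Nat.Coprime.pow 20 20 (hcop q hq))
      have h4 : Nat.gcd n (q ^ 20) = Nat.gcd b (q ^ 20) := by
        rw [hab]
        exact Nat.Coprime.gcd_mul_left_cancel b hcaq
      rw [h4]
    rw [hab, isMultiplicative_sigma.map_mul_of_coprime hcab, h1, h2, h3, ← hab]
    unfold sig
    rw [List.map_cons, List.prod_cons]

lemma ok_iff {l : Leaf} (h : l.ok = true) : l.ps.Nodup ∧ (∀ p ∈ l.ps, p.Prime) ∧ 1 ≤ l.q ∧
    l.q < l.d ∧ l.d ∣ l.e ∧ 1 ≤ l.e ∧ l.ps.prod = l.R ∧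
    Nat.Coprime (l.e / l.d) (l.q * (l.d - l.q) * l.d) ∧
    (l.q * (l.d - l.q) * l.d) ∣ l.R ^ 20 ∧
    sig l.ps l.d = sig l.ps l.q + sig l.ps (l.d - l.q) := by
  simp only [Leaf.ok, Bool.and_eq_true, decide_eq_true_eq, List.all_eq_true, beq_iff_eq] at h
  obtain ⟨⟨⟨⟨⟨⟨⟨⟨⟨h1, h2⟩, h3⟩, h4⟩, h5⟩, h6⟩, h7⟩, h8⟩, h9⟩, h10⟩ := h
  exact ⟨h1, fun p hp => prime_of_mem p (h2 p hp), h3, h4, Nat.dvd_of_mod_eq_zero h5, h6, h7, h8,
    Nat.dvd_of_mod_eq_zero h9, h10⟩

lemma cls_subset {l : Leaf} (h : l.ok = true) : l.cls ⊆ S := by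
  obtain ⟨h1, h2, h3, h4, ⟨k, hk⟩, h6, h7, h8, h9, h10⟩ := ok_iff h
  have hd0 : 0 < l.d := by omega
  have hq0 : l.q ≠ 0 := by omega
  have hr0 : l.d - l.q ≠ 0 := by omega
  rintro n ⟨m, hm, hco, rfl⟩
  have hk' : l.e / l.d = k := by rw [hk]; exact Nat.mul_div_cancel_left k hd0
  rw [hk'] at h8
  have hk0 : k ≠ 0 := by
    rintro rfl
    omega
  have hdR : l.d ∣ l.R ^ 20 := (Dvd.intro_left _ rfl).trans h9
  have hqR : l.q ∣ l.R ^ 20 := ((Dvd.intro _ rfl).trans (Dvd.intro _ rfl)).trans h9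
  have hrR : (l.d - l.q) ∣ l.R ^ 20 := ((Dvd.intro_left _ rfl).trans (Dvd.intro _ rfl)).trans h9
  have hsig : sigma 1 l.d = sigma 1 l.q + sigma 1 (l.d - l.q) := by
    rw [sig_eq l.ps l.d h2 h1 hd0.ne' (by rw [h7]; exact hdR),
      sig_eq l.ps l.q h2 h1 hq0 (by rw [h7]; exact hqR),
      sig_eq l.ps (l.d - l.q) h2 h1 hr0 (by rw [h7]; exact hrR), h10]
  have hcm : Nat.Coprime m (l.q * (l.d - l.q) * l.d) :=
    Nat.Coprime.coprime_dvd_right h9 (Nat.Coprime.pow_right 20 hco)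
  have := closed h3 h4 hsig (mul_ne_zero hk0 hm) (Nat.Coprime.mul_left h8 hcm)
  rwa [← mul_assoc, ← hk] at this

lemma disj_cls {l l' : Leaf} (h : disj l l' = true) : Disjoint l.cls l'.cls := by
  rw [Set.disjoint_left]
  rintro n ⟨m, hm, hco, hn⟩ ⟨m', hm', hco', hn'⟩
  rw [disj, bne_iff_ne] at h
  refine h ?_
  set g := Nat.gcd l.R l'.R with hg
  have h1 : Nat.Coprime m (g ^ 20) := Nat.Coprime.pow_right 20
    (Nat.Coprime.coprime_dvd_right (Nat.gcd_dvd_left _ _) hco)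
  have h2 : Nat.Coprime m' (g ^ 20) := Nat.Coprime.pow_right 20
    (Nat.Coprime.coprime_dvd_right (Nat.gcd_dvd_right _ _) hco')
  calc Nat.gcd l.e (g ^ 20) = Nat.gcd (l.e * m) (g ^ 20) :=
        (Nat.Coprime.gcd_mul_right_cancel l.e h1).symm
    _ = Nat.gcd (l'.e * m') (g ^ 20) := by rw [← hn, ← hn']
    _ = Nat.gcd l'.e (g ^ 20) := Nat.Coprime.gcd_mul_right_cancel l'.e h2

lemma count_coprime (R k : ℕ) : N {m | Nat.Coprime m R} (R * k) = k * Nat.totient R := by
  classical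
  obtain ⟨A, hA⟩ : ∃ A : Set ℕ, A = {m | Nat.Coprime m R} := ⟨_, rfl⟩
  have hmem : ∀ n, n ∈ A ↔ Nat.Coprime R n := by
    intro n
    rw [hA, Nat.coprime_comm]
    rfl
  rw [← hA]
  induction k with
  | zero => simp [N]
  | succ k ih =>
    have h1 : N A (R * (k + 1)) = N A (R * k) +
        ((Ico (R * k + 1) (R * k + 1 + R)).filter (fun x => R.Coprime x)).card := by
      unfold N
      rw [← Finset.card_union_of_disjoint]
      · congr 1
        ext n
        simp only [Finset.mem_filter, Finset.mem_Icc, Finset.mem_union, Finset.mem_Ico, hmem]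
        have : R * (k + 1) = R * k + R := by ring
        rw [this]
        constructor
        · rintro ⟨⟨h1, h2⟩, h3⟩
          rcases Nat.lt_or_ge (R * k) n with h4 | h4
          · exact Or.inr ⟨⟨by omega, by omega⟩, h3⟩
          · exact Or.inl ⟨⟨h1, h4⟩, h3⟩
        · rintro (⟨⟨h1, h2⟩, h3⟩ | ⟨⟨h1, h2⟩, h3⟩)
          · exact ⟨⟨h1, by omega⟩, h3⟩
          · exact ⟨⟨by omega, by omega⟩, h3⟩
      · rw [Finset.disjoint_left]
        intro n hn hn2
        rw [Finset.mem_filter, Finset.mem_Icc] at hn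
        rw [Finset.mem_filter, Finset.mem_Ico] at hn2
        omega
    rw [h1, ih, Nat.filter_coprime_Ico_eq_totient]
    ring

lemma N_cls_ge (l : Leaf) (he : 1 ≤ l.e) (hR : 1 ≤ l.R) (x : ℕ) :
    (Nat.totient l.R : ℝ) * (x / (l.e * l.R) - 1) ≤ N l.cls x := by
  classical
  set k := x / (l.e * l.R) with hk
  have heR : 0 < l.e * l.R := Nat.mul_pos he hR
  have h1 : k * Nat.totient l.R ≤ N l.cls x := by
    rw [← count_coprime l.R k]
    unfold N
    refine Finset.card_le_card_of_injOn (fun m => l.e * m) ?_ ?_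
    · intro m hm
      simp only [Finset.coe_filter, Finset.mem_Icc, Set.mem_ofPred_eq] at hm ⊢
      obtain ⟨⟨hm1, hm2⟩, hm3⟩ := hm
      refine ⟨⟨Nat.mul_pos he hm1, ?_⟩, m, by omega, hm3, rfl⟩
      calc l.e * m ≤ l.e * (l.R * k) := Nat.mul_le_mul_left _ hm2
        _ = (l.e * l.R) * (x / (l.e * l.R)) := by rw [hk]; ring
        _ ≤ x := Nat.mul_div_le x _
    · intro a _ b _ hab
      exact Nat.eq_of_mul_eq_mul_left he hab
  have h2 : (x : ℝ) / (l.e * l.R) - 1 ≤ k := by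
    have := Nat.lt_floor_add_one ((x : ℝ) / ((l.e * l.R : ℕ) : ℝ))
    rw [Nat.floor_div_natCast, Nat.floor_natCast] at this
    push_cast at this
    linarith
  calc (Nat.totient l.R : ℝ) * (x / (l.e * l.R) - 1) ≤ Nat.totient l.R * k :=
        mul_le_mul_of_nonneg_left h2 (Nat.cast_nonneg _)
    _ = ((k * Nat.totient l.R : ℕ) : ℝ) := by push_cast; ring
    _ ≤ N l.cls x := by exact_mod_cast h1

lemma totient_prod (ps : List ℕ) (hp : ∀ p ∈ ps, p.Prime) (hnd : ps.Nodup) :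
    Nat.totient ps.prod = (ps.map (fun p => p - 1)).prod := by
  induction ps with
  | nil => simp
  | cons p ps ih =>
    rw [List.nodup_cons] at hnd
    have hpp : p.Prime := hp p (by simp)
    have hps : ∀ q ∈ ps, q.Prime := fun q hq => hp q (by simp [hq])
    have hcop : ∀ q ∈ ps, Nat.Coprime p q := fun q hq =>
      (Nat.coprime_primes hpp (hps q hq)).2 (fun h => hnd.1 (h ▸ hq))
    rw [List.prod_cons, Nat.totient_mul (Nat.coprime_list_prod_right_iff.2 hcop),
      Nat.totient_prime hpp, ih hps hnd.2, List.map_cons, List.prod_cons]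

lemma N_union (A B : Set ℕ) (h : Disjoint A B) (x : ℕ) : N A x + N B x ≤ N (A ∪ B) x := by
  classical
  obtain ⟨U, hU⟩ : ∃ U : Set ℕ, U = A ∪ B := ⟨_, rfl⟩
  rw [← hU]
  unfold N
  rw [← Finset.card_union_of_disjoint]
  · refine Finset.card_le_card ?_
    intro n hn
    rw [Finset.mem_union, Finset.mem_filter, Finset.mem_filter] at hn
    rw [Finset.mem_filter]
    rcases hn with hn | hn
    · exact ⟨hn.1, hU ▸ Or.inl hn.2⟩
    · exact ⟨hn.1, hU ▸ Or.inr hn.2⟩
  · rw [Finset.disjoint_left]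
    intro n hn hn2
    rw [Finset.mem_filter] at hn hn2
    exact Set.disjoint_left.1 h hn.2 hn2.2

lemma N_list (L : List Leaf) (hp : pairCheck L = true) (x : ℕ) :
    (L.map (fun l => N l.cls x)).sum ≤ N {n | ∃ l ∈ L, n ∈ l.cls} x := by
  induction L with
  | nil => simp
  | cons l L ih =>
    rw [pairCheck, Bool.and_eq_true, List.all_eq_true] at hp
    rw [List.map_cons, List.sum_cons]
    have h1 : Disjoint l.cls {n | ∃ l ∈ L, n ∈ l.cls} := by
      rw [Set.disjoint_left]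
      rintro n hn ⟨l', hl', hn'⟩
      exact Set.disjoint_left.1 (disj_cls (hp.1 l' hl')) hn hn'
    refine (Nat.add_le_add_left (ih hp.2) _).trans ((N_union _ _ h1 x).trans (N_mono ?_ x))
    rintro n (hn | ⟨l', hl', hn'⟩)
    · exact ⟨l, by simp, hn⟩
    · exact ⟨l', by simp [hl'], hn'⟩

/-- The lower natural density of `S` is at least `7/20`. -/
lemma lower_bound : ∀ᶠ x : ℕ in atTop, (7 / 20 : ℝ) ≤ (N S x : ℝ) / x := by
  have hok : ∀ l ∈ leaves, l.ok = true := List.all_eq_true.1 leaves_ok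
  have h1 : ∀ x : ℕ, (leaves.map (fun l => N l.cls x)).sum ≤ N S x := fun x =>
    (N_list leaves leaves_pair x).trans (N_mono (by
      rintro n ⟨l, hl, hn⟩
      exact cls_subset (hok l hl) hn) x)
  have hone : ∀ l ∈ leaves, ∀ x : ℕ, (l.wt : ℝ) / 10 ^ 9 * x - Nat.totient l.R ≤ N l.cls x := by
    intro l hl x
    obtain ⟨h1, h2, h3, h4, h5, h6, h7, h8, h9, h10⟩ := ok_iff (hok l hl)
    have hR : 1 ≤ l.R := by
      rw [← h7]
      refine Nat.pos_of_ne_zero fun h0 => ?_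
      rw [List.prod_eq_zero_iff] at h0
      exact (h2 0 h0).ne_zero rfl
    have h11 := N_cls_ge l h6 hR x
    have heR : (0 : ℝ) < l.e * l.R := by
      have : 0 < l.e * l.R := Nat.mul_pos h6 hR
      exact_mod_cast this
    have h12 : (l.wt : ℝ) ≤ 10 ^ 9 * Nat.totient l.R / (l.e * l.R) := by
      rw [le_div_iff₀ heR]
      have : l.wt * (l.e * l.R) ≤ 10 ^ 9 * Nat.totient l.R := by
        rw [← h7, totient_prod l.ps h2 h1, h7, Leaf.wt]
        exact Nat.div_mul_le_self _ _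
      exact_mod_cast this
    have h13 : (l.wt : ℝ) / 10 ^ 9 * x ≤ Nat.totient l.R * (x / (l.e * l.R)) := by
      calc (l.wt : ℝ) / 10 ^ 9 * x ≤ (10 ^ 9 * Nat.totient l.R / (l.e * l.R)) / 10 ^ 9 * x :=
            mul_le_mul_of_nonneg_right (div_le_div_of_nonneg_right h12 (by norm_num))
              (Nat.cast_nonneg _)
        _ = _ := by ring
    calc (l.wt : ℝ) / 10 ^ 9 * x - Nat.totient l.R ≤
          Nat.totient l.R * (x / (l.e * l.R)) - Nat.totient l.R := by linarith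
      _ = Nat.totient l.R * (x / (l.e * l.R) - 1) := by ring
      _ ≤ _ := h11
  have hsum : ∀ (L : List Leaf), (∀ l ∈ L, l ∈ leaves) → ∀ x : ℕ,
      (((L.map Leaf.wt).sum : ℕ) : ℝ) / 10 ^ 9 * x -
        (((L.map (fun l => Nat.totient l.R)).sum : ℕ) : ℝ) ≤
        (((L.map (fun l => N l.cls x)).sum : ℕ) : ℝ) := by
    intro L hL x
    induction L with
    | nil => simp
    | cons l L ih =>
      have ih' := ih fun l' hl' => hL l' (by simp [hl'])
      have h2 := hone l (hL l (by simp)) x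
      simp only [List.map_cons, List.sum_cons, Nat.cast_add]
      have e : ((l.wt : ℝ) + (((L.map Leaf.wt).sum : ℕ) : ℝ)) / 10 ^ 9 * x =
        (l.wt : ℝ) / 10 ^ 9 * x + (((L.map Leaf.wt).sum : ℕ) : ℝ) / 10 ^ 9 * x := by ring
      rw [e]
      linarith
  set C := (leaves.map (fun l => Nat.totient l.R)).sum with hC
  have h2 : (350000001 : ℝ) ≤ (((leaves.map Leaf.wt).sum : ℕ) : ℝ) := by exact_mod_cast leaves_wt
  filter_upwards [eventually_ge_atTop (10 ^ 9 * C + 1)] with x hx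
  have hx0 : (0 : ℝ) < x := by exact_mod_cast (by omega : 0 < x)
  have hx' : (10 : ℝ) ^ 9 * C + 1 ≤ x := by exact_mod_cast hx
  have h3 := hsum leaves (fun l hl => hl) x
  have h4 : (((leaves.map (fun l => N l.cls x)).sum : ℕ) : ℝ) ≤ N S x := by exact_mod_cast h1 x
  have h5 : (350000001 : ℝ) / 10 ^ 9 * x ≤ (((leaves.map Leaf.wt).sum : ℕ) : ℝ) / 10 ^ 9 * x :=
    mul_le_mul_of_nonneg_right (div_le_div_of_nonneg_right h2 (by norm_num)) hx0.le
  rw [le_div_iff₀ hx0]
  rw [← hC] at h3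
  have h6 : (350000001 : ℝ) / 10 ^ 9 * x = 7 / 20 * x + x / 10 ^ 9 := by ring
  have h7 : (C : ℝ) ≤ x / 10 ^ 9 := by
    rw [le_div_iff₀ (by norm_num)]
    linarith
  linarith

end Pool.Agent.Helper54.SigmaDens
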