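import Mathlib

/-!
# An averaging weight

For `1 < s' < s` the weight `hw s' u m = m^{-s'} ∏_{p ∣ m} (1 - p^{-u})`, `u = s - s'`, satisfies
`∑_{d e = n} d^{-s} hw(e) = n^{-s'}`.
-/

namespace Pool.Agent.Helper54.SigmaDens

open Finset ArithmeticFunction Filter Topology

/-- `n ↦ n^{-u}` as an arithmetic function. -/
noncomputable def powNeg (u : ℝ) : ArithmeticFunction ℝ :=
  ⟨fun n => if n = 0 then 0 else (n : ℝ) ^ (-u), by simp⟩

/-- `n ↦ ∏_{p ∣ n} (1 - p^{-u})` as an arithmetic function. -/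
noncomputable def gw (u : ℝ) : ArithmeticFunction ℝ :=
  prodPrimeFactors (fun p => 1 - (p : ℝ) ^ (-u))

lemma powNeg_apply {u : ℝ} {n : ℕ} (hn : n ≠ 0) : powNeg u n = (n : ℝ) ^ (-u) := by
  simp [powNeg, hn]

lemma gw_apply {u : ℝ} {n : ℕ} (hn : n ≠ 0) :
    gw u n = ∏ p ∈ n.primeFactors, (1 - (p : ℝ) ^ (-u)) := by
  rw [gw, prodPrimeFactors_apply hn]

lemma powNeg_mult (u : ℝ) : (powNeg u).IsMultiplicative := by
  rw [IsMultiplicative.iff_ne_zero]
  refine ⟨by simp [powNeg], ?_⟩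
  intro m n hm hn _
  rw [powNeg_apply hm, powNeg_apply hn, powNeg_apply (mul_ne_zero hm hn), Nat.cast_mul,
    Real.mul_rpow (Nat.cast_nonneg _) (Nat.cast_nonneg _)]

lemma gw_mult (u : ℝ) : (gw u).IsMultiplicative := IsMultiplicative.prodPrimeFactors _

lemma powNeg_mul_gw (u : ℝ) : powNeg u * gw u = ((zeta : ArithmeticFunction ℕ) : ArithmeticFunction ℝ) := by
  have h1 : (powNeg u * gw u).IsMultiplicative := (powNeg_mult u).mul (gw_mult u)
  rw [h1.eq_iff_eq_on_prime_powers _ _ isMultiplicative_zeta.natCast]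
  intro p k hp
  rw [ArithmeticFunction.mul_apply, Nat.sum_divisorsAntidiagonal (fun a b => powNeg u a * gw u b),
    Nat.sum_divisors_prime_pow hp]
  have hz : ((zeta : ArithmeticFunction ℕ) : ArithmeticFunction ℝ) (p ^ k) = 1 := by
    simp [hp.ne_zero]
  rw [hz]
  have hgw : ∀ i, 0 < i → gw u (p ^ i) = 1 - (p : ℝ) ^ (-u) := by
    intro i hi
    rw [gw_apply (pow_ne_zero _ hp.ne_zero), Nat.primeFactors_prime_pow hi.ne' hp]
    simp
  have hg0 : gw u 1 = 1 := by rw [gw_apply one_ne_zero]; simp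
  have hpn : ∀ i, powNeg u (p ^ i) = ((p : ℝ) ^ (-u)) ^ i := by
    intro i
    rw [powNeg_apply (pow_ne_zero _ hp.ne_zero)]
    push_cast
    rw [← Real.rpow_natCast, ← Real.rpow_natCast, ← Real.rpow_mul (Nat.cast_nonneg _),
      ← Real.rpow_mul (Nat.cast_nonneg _), mul_comm]
  rw [Finset.sum_range_succ]
  have h2 : ∀ i ∈ range k, powNeg u (p ^ i) * gw u (p ^ k / p ^ i) =
      ((p : ℝ) ^ (-u)) ^ i - ((p : ℝ) ^ (-u)) ^ (i + 1) := by
    intro i hi
    rw [Finset.mem_range] at hi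
    rw [Nat.pow_div hi.le hp.pos, hgw _ (by omega), hpn]
    ring
  rw [Finset.sum_congr rfl h2, Finset.sum_range_sub', Nat.div_self (pow_pos hp.pos _), hg0, hpn]
  ring

/-- The averaging weight. -/
noncomputable def hw (s' u : ℝ) (m : ℕ) : ℝ := (m : ℝ) ^ (-s') * gw u m

lemma gw_nonneg {u : ℝ} (hu : 0 ≤ u) (m : ℕ) : 0 ≤ gw u m := by
  rcases eq_or_ne m 0 with rfl | hm
  · simp
  rw [gw_apply hm]
  refine Finset.prod_nonneg fun p hp => ?_
  have hp' := Nat.prime_of_mem_primeFactors hp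
  have : (p : ℝ) ^ (-u) ≤ 1 := Real.rpow_le_one_of_one_le_of_nonpos
    (by exact_mod_cast hp'.one_le) (by linarith)
  linarith

lemma gw_le_one {u : ℝ} (hu : 0 ≤ u) (m : ℕ) : gw u m ≤ 1 := by
  rcases eq_or_ne m 0 with rfl | hm
  · simp
  rw [gw_apply hm]
  refine Finset.prod_le_one (fun p hp => ?_) (fun p hp => ?_)
  · have hp' := Nat.prime_of_mem_primeFactors hp
    have : (p : ℝ) ^ (-u) ≤ 1 := Real.rpow_le_one_of_one_le_of_nonpos
      (by exact_mod_cast hp'.one_le) (by linarith)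
    linarith
  · have : 0 ≤ (p : ℝ) ^ (-u) := Real.rpow_nonneg (Nat.cast_nonneg _) _
    linarith

lemma hw_nonneg {s' u : ℝ} (hu : 0 ≤ u) (m : ℕ) : 0 ≤ hw s' u m :=
  mul_nonneg (Real.rpow_nonneg (Nat.cast_nonneg _) _) (gw_nonneg hu m)

lemma hw_le {s' u : ℝ} (hu : 0 ≤ u) (m : ℕ) : hw s' u m ≤ (m : ℝ) ^ (-s') :=
  mul_le_of_le_one_right (Real.rpow_nonneg (Nat.cast_nonneg _) _) (gw_le_one hu m)

lemma summable_pow {s : ℝ} (hs : 1 < s) : Summable (fun n : ℕ => (n : ℝ) ^ (-s)) :=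
  Real.summable_nat_rpow.2 (by linarith)

lemma summable_hw {s' u : ℝ} (hs : 1 < s') (hu : 0 ≤ u) : Summable (hw s' u) :=
  Summable.of_nonneg_of_le (hw_nonneg hu) (hw_le hu) (summable_pow hs)

/-- The convolution identity. -/
lemma conv_hw {s' u : ℝ} {n : ℕ} (hn : n ≠ 0) :
    ∑ x ∈ n.divisorsAntidiagonal, (x.1 : ℝ) ^ (-(s' + u)) * hw s' u x.2 = (n : ℝ) ^ (-s') := by
  have h1 : ∀ x ∈ n.divisorsAntidiagonal, (x.1 : ℝ) ^ (-(s' + u)) * hw s' u x.2 =
      (n : ℝ) ^ (-s') * (powNeg u x.1 * gw u x.2) := by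
    intro x hx
    rw [Nat.mem_divisorsAntidiagonal] at hx
    have hx1 : x.1 ≠ 0 := fun h => hx.2 (by rw [← hx.1, h, zero_mul])
    have hx1' : (0 : ℝ) < x.1 := by exact_mod_cast Nat.pos_of_ne_zero hx1
    rw [powNeg_apply hx1, hw, ← hx.1, Nat.cast_mul, Real.mul_rpow hx1'.le (Nat.cast_nonneg _),
      neg_add, Real.rpow_add hx1']
    ring
  rw [Finset.sum_congr rfl h1, ← Finset.mul_sum, ← ArithmeticFunction.mul_apply, powNeg_mul_gw]
  simp [hn]

/-- Regrouping a double sum by the product. -/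
lemma hasSum_antidiag {φ : ℕ × ℕ → ℝ} (hφ : Summable φ) (h0 : ∀ x : ℕ × ℕ, x.1 * x.2 = 0 → φ x = 0) :
    HasSum (fun n : ℕ => ∑ x ∈ n.divisorsAntidiagonal, φ x) (∑' x, φ x) := by
  have h1 := hφ.hasSum.tsum_fiberwise (fun p : ℕ × ℕ => p.1 * p.2)
  have h2 : (fun n : ℕ => ∑ x ∈ n.divisorsAntidiagonal, φ x) =
      fun n : ℕ => ∑' b : (fun p : ℕ × ℕ ↦ p.1 * p.2) ⁻¹' {n}, φ b.val := by
    funext n
    rcases eq_or_ne n 0 with rfl | hn
    · have : ∀ p : (fun p : ℕ × ℕ ↦ p.1 * p.2) ⁻¹' {0}, φ p.val = 0 := by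
        rintro ⟨p, hp⟩
        exact h0 p hp
      simp [this]
    · rw [show (fun p : ℕ × ℕ ↦ p.1 * p.2) ⁻¹' {n} = n.divisorsAntidiagonal by ext; simp [hn],
        Finset.tsum_subtype' n.divisorsAntidiagonal φ]
  rw [h2]
  exact h1

/-- The Dirichlet series `∑ n^{-s}`. -/
noncomputable def Z (s : ℝ) : ℝ := ∑' n : ℕ, (n : ℝ) ^ (-s)

lemma zero_pow_neg {s : ℝ} (hs : 1 < s) : ((0 : ℕ) : ℝ) ^ (-s) = 0 := by
  rw [Nat.cast_zero, Real.zero_rpow (by linarith)]

lemma Z_mul {s' u : ℝ} (hs : 1 < s') (hu : 0 ≤ u) :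
    Z (s' + u) * ∑' m, hw s' u m = Z s' := by
  have hs2 : 1 < s' + u := by linarith
  have h1 : Summable (fun x : ℕ × ℕ => (x.1 : ℝ) ^ (-(s' + u)) * hw s' u x.2) :=
    (summable_pow hs2).mul_of_nonneg (summable_hw hs hu)
      (fun n => Real.rpow_nonneg (Nat.cast_nonneg _) _) (hw_nonneg hu)
  have h2 := hasSum_antidiag h1 (fun x hx => by
    rcases Nat.mul_eq_zero.1 hx with h | h
    · rw [h, zero_pow_neg hs2, zero_mul]
    · rw [h, hw]; simp)
  have h3 : ∑' x : ℕ × ℕ, (x.1 : ℝ) ^ (-(s' + u)) * hw s' u x.2 =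
      Z (s' + u) * ∑' m, hw s' u m :=
    ((summable_pow hs2).tsum_mul_tsum (summable_hw hs hu) h1).symm
  rw [← h3, ← h2.tsum_eq, Z]
  refine tsum_congr fun n => ?_
  rcases eq_or_ne n 0 with rfl | hn
  · simp [Real.zero_rpow (show -s' ≠ 0 by linarith)]
  · exact conv_hw hn

lemma rpow_neg_le_one {u : ℝ} (hu : 0 ≤ u) {p : ℕ} (hp : 1 ≤ p) : (p : ℝ) ^ (-u) ≤ 1 :=
  Real.rpow_le_one_of_one_le_of_nonpos (by exact_mod_cast hp) (by linarith)

lemma hw_prime_mul {s' u : ℝ} (hu : 0 ≤ u) {p : ℕ} (hp : p.Prime) (k : ℕ) :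
    hw s' u (p * k) ≤ (p : ℝ) ^ (-s') *
      ((1 - (p : ℝ) ^ (-u)) * hw s' u k + if p ∣ k then hw s' u k else 0) := by
  rcases eq_or_ne k 0 with rfl | hk
  · simp [hw]
  have hpk : p * k ≠ 0 := mul_ne_zero hp.ne_zero hk
  have h1 : (0 : ℝ) ≤ 1 - (p : ℝ) ^ (-u) := sub_nonneg.2 (rpow_neg_le_one hu hp.one_le)
  by_cases hd : p ∣ k
  · rw [if_pos hd]
    have hgw : gw u (p * k) = gw u k := by
      rw [gw_apply hpk, gw_apply hk, Nat.primeFactors_mul hp.ne_zero hk, hp.primeFactors]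
      congr 1
      refine Finset.union_eq_right.2 ?_
      intro q hq
      rw [Finset.mem_singleton] at hq
      rw [hq]
      exact Nat.mem_primeFactors.2 ⟨hp, hd, hk⟩
    have h2 : hw s' u (p * k) = (p : ℝ) ^ (-s') * hw s' u k := by
      rw [hw, hw, hgw, Nat.cast_mul, Real.mul_rpow (Nat.cast_nonneg _) (Nat.cast_nonneg _)]
      ring
    rw [h2]
    refine mul_le_mul_of_nonneg_left ?_ (Real.rpow_nonneg (Nat.cast_nonneg _) _)
    have := mul_nonneg h1 (hw_nonneg (s' := s') hu k)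
    linarith
  · rw [if_neg hd, add_zero]
    have hco : Nat.Coprime p k := (Nat.Prime.coprime_iff_not_dvd hp).2 hd
    have hgw : gw u (p * k) = (1 - (p : ℝ) ^ (-u)) * gw u k := by
      rw [(gw_mult u).map_mul_of_coprime hco, gw_apply hp.ne_zero, hp.primeFactors]
      simp
    rw [hw, hw, hgw, Nat.cast_mul, Real.mul_rpow (Nat.cast_nonneg _) (Nat.cast_nonneg _)]
    apply le_of_eq
    ring

lemma tsum_dvd_le {s' u : ℝ} (hs : 1 < s') (hu : 0 ≤ u) {p : ℕ} (hp : p.Prime) :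
    ∑' m, (if p ∣ m then hw s' u m else 0) ≤ 2 * u * (Real.log p / p) * ∑' m, hw s' u m := by
  have hsw := summable_hw hs hu
  have hsd : Summable (fun m => if p ∣ m then hw s' u m else 0) := by
    refine Summable.of_nonneg_of_le (fun m => ?_) (fun m => ?_) hsw
    · split_ifs
      · exact hw_nonneg hu m
      · exact le_rfl
    · split_ifs
      · exact le_rfl
      · exact hw_nonneg hu m
  have hinj : Function.Injective (fun k : ℕ => p * k) := fun a b h =>
    Nat.eq_of_mul_eq_mul_left hp.pos h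
  have h1 : ∑' m, (if p ∣ m then hw s' u m else 0) = ∑' k, hw s' u (p * k) := by
    have := hinj.tsum_eq (f := fun m => if p ∣ m then hw s' u m else 0) (by
      intro m hm
      rw [Function.mem_support] at hm
      by_cases hd : p ∣ m
      · obtain ⟨k, rfl⟩ := hd
        exact ⟨k, rfl⟩
      · simp [hd] at hm)
    rw [← this]
    refine tsum_congr fun k => ?_
    simp
  have hpr : (1 : ℝ) < p := by exact_mod_cast hp.one_lt
  have hp2 : (2 : ℝ) ≤ p := by exact_mod_cast hp.two_le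
  set W := ∑' m, (if p ∣ m then hw s' u m else 0) with hW
  set H := ∑' m, hw s' u m with hH
  have hW0 : 0 ≤ W := tsum_nonneg fun m => by
    split_ifs
    · exact hw_nonneg hu m
    · exact le_rfl
  have hH0 : 0 ≤ H := tsum_nonneg (hw_nonneg hu)
  have h2 : W ≤ (p : ℝ) ^ (-s') * ((1 - (p : ℝ) ^ (-u)) * H + W) := by
    have hsum : Summable (fun k => (p : ℝ) ^ (-s') *
      ((1 - (p : ℝ) ^ (-u)) * hw s' u k + if p ∣ k then hw s' u k else 0)) :=
      ((hsw.mul_left _).add hsd).mul_left _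
    calc W = ∑' k, hw s' u (p * k) := h1
      _ ≤ ∑' k, (p : ℝ) ^ (-s') *
      ((1 - (p : ℝ) ^ (-u)) * hw s' u k + if p ∣ k then hw s' u k else 0) :=
        (hsw.comp_injective hinj).tsum_le_tsum (hw_prime_mul hu hp) hsum
      _ = _ := by
        rw [tsum_mul_left, (hsw.mul_left _).tsum_add hsd, tsum_mul_left]
  have h3 : (p : ℝ) ^ (-s') ≤ 1 / p := by
    rw [one_div, ← Real.rpow_neg_one]
    exact Real.rpow_le_rpow_of_exponent_le hpr.le (by linarith)
  have h4 : (p : ℝ) ^ (-s') ≤ 1 / 2 := h3.trans (by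
    rw [div_le_div_iff₀ (by linarith) (by norm_num)]
    linarith)
  have h5 : 1 - (p : ℝ) ^ (-u) ≤ u * Real.log p := by
    have h6 : (p : ℝ) ^ (-u) = Real.exp (-(u * Real.log p)) := by
      rw [Real.rpow_def_of_pos (by linarith)]
      congr 1
      ring
    rw [h6]
    have := Real.add_one_le_exp (-(u * Real.log p))
    linarith
  have h50 : (0 : ℝ) ≤ 1 - (p : ℝ) ^ (-u) := sub_nonneg.2 (rpow_neg_le_one hu hp.one_le)
  have hq0 : 0 ≤ (p : ℝ) ^ (-s') := Real.rpow_nonneg (Nat.cast_nonneg _) _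
  have h7 : (p : ℝ) ^ (-s') * ((1 - (p : ℝ) ^ (-u)) * H) ≤ 1 / p * (u * Real.log p * H) := by
    apply mul_le_mul h3 (mul_le_mul_of_nonneg_right h5 hH0) (mul_nonneg h50 hH0)
    positivity
  have h8 : (p : ℝ) ^ (-s') * W ≤ 1 / 2 * W := mul_le_mul_of_nonneg_right h4 hW0
  have h9 : 2 * u * (Real.log p / p) * H = 2 * (1 / p * (u * Real.log p * H)) := by ring
  rw [h9]
  nlinarith

/-- The logarithmic weight of the prime factors of `c`. -/
noncomputable def om (c : ℕ) : ℝ := ∑ p ∈ c.primeFactors, Real.log p / p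

lemma tsum_coprime_ge {s' u : ℝ} (hs : 1 < s') (hu : 0 ≤ u) {c : ℕ} (hc : c ≠ 0) :
    (1 - 2 * u * om c) * ∑' m, hw s' u m ≤
      ∑' m, (if Nat.Coprime m c then hw s' u m else 0) := by
  have hsw := summable_hw hs hu
  have hsub : ∀ (P : ℕ → Prop) [DecidablePred P], Summable (fun m => if P m then hw s' u m else 0) := by
    intro P _
    refine Summable.of_nonneg_of_le (fun m => ?_) (fun m => ?_) hsw
    · split_ifs
      · exact hw_nonneg hu m
      · exact le_rfl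
    · split_ifs
      · exact le_rfl
      · exact hw_nonneg hu m
  have h1 : ∀ m, hw s' u m ≤ (if Nat.Coprime m c then hw s' u m else 0) +
      ∑ p ∈ c.primeFactors, (if p ∣ m then hw s' u m else 0) := by
    intro m
    have hnn : 0 ≤ ∑ p ∈ c.primeFactors, (if p ∣ m then hw s' u m else 0) :=
      Finset.sum_nonneg fun p _ => by
        split_ifs
        · exact hw_nonneg hu m
        · exact le_rfl
    by_cases hco : Nat.Coprime m c
    · rw [if_pos hco]
      linarith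
    · rw [if_neg hco, zero_add]
      obtain ⟨p, hp, hpm, hpc⟩ := Nat.Prime.not_coprime_iff_dvd.1 hco
      refine le_trans ?_ (Finset.single_le_sum (f := fun p => if p ∣ m then hw s' u m else 0)
        (fun p _ => by
          split_ifs
          · exact hw_nonneg hu m
          · exact le_rfl) (Nat.mem_primeFactors.2 ⟨hp, hpc, hc⟩))
      simp [hpm]
  have h2 : ∑' m, hw s' u m ≤ ∑' m, ((if Nat.Coprime m c then hw s' u m else 0) +
      ∑ p ∈ c.primeFactors, (if p ∣ m then hw s' u m else 0)) :=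
    hsw.tsum_le_tsum h1 ((hsub _).add (summable_sum fun p _ => hsub _))
  rw [(hsub _).tsum_add (summable_sum fun p _ => hsub _),
    Summable.tsum_finsetSum (fun p _ => hsub _)] at h2
  have h3 : ∑ p ∈ c.primeFactors, ∑' m, (if p ∣ m then hw s' u m else 0) ≤
      ∑ p ∈ c.primeFactors, 2 * u * (Real.log p / p) * ∑' m, hw s' u m :=
    Finset.sum_le_sum fun p hp => tsum_dvd_le hs hu (Nat.prime_of_mem_primeFactors hp)
  rw [← Finset.sum_mul, ← Finset.mul_sum] at h3
  have : (1 - 2 * u * om c) * ∑' m, hw s' u m = ∑' m, hw s' u m -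
      2 * u * (∑ p ∈ c.primeFactors, Real.log p / p) * ∑' m, hw s' u m := by
    rw [om]; ring
  rw [this]
  linarith

open Classical in
/-- The transfer inequality for the multiplicative closure of a finite set. -/
lemma transfer {s' u : ℝ} (hs : 1 < s') (hu : 0 ≤ u) (F : Finset ℕ) (c : ℕ → ℕ)
    (hc : ∀ d ∈ F, c d ≠ 0) (A : Set ℕ)
    (hA : ∀ d ∈ F, ∀ m, m ≠ 0 → Nat.Coprime m (c d) → d * m ∈ A) :
    (∑' m, hw s' u m) * ∑ d ∈ F, (d : ℝ) ^ (-(s' + u)) * (1 - 2 * u * om (c d)) ≤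
      ∑' n : ℕ, (if n ∈ A then (n : ℝ) ^ (-s') else 0) := by
  have hs2 : 1 < s' + u := by linarith
  have hsw := summable_hw hs hu
  have h1 : Summable (fun x : ℕ × ℕ => (x.1 : ℝ) ^ (-(s' + u)) * hw s' u x.2) :=
    (summable_pow hs2).mul_of_nonneg (summable_hw hs hu)
      (fun n => Real.rpow_nonneg (Nat.cast_nonneg _) _) (hw_nonneg hu)
  have hx0 : ∀ x : ℕ × ℕ, 0 ≤ (x.1 : ℝ) ^ (-(s' + u)) * hw s' u x.2 := fun x =>
    mul_nonneg (Real.rpow_nonneg (Nat.cast_nonneg _) _) (hw_nonneg hu _)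
  let φ : ℕ × ℕ → ℝ := fun x => if x.1 ∈ F ∧ Nat.Coprime x.2 (c x.1) then
    (x.1 : ℝ) ^ (-(s' + u)) * hw s' u x.2 else 0
  have hφ : Summable φ := by
    refine Summable.of_nonneg_of_le (fun x => ?_) (fun x => ?_) h1
    · simp only [φ]
      split_ifs
      · exact hx0 x
      · exact le_rfl
    · simp only [φ]
      split_ifs
      · exact le_rfl
      · exact hx0 x
  have h2 := hasSum_antidiag hφ (fun x hx => by
    simp only [φ]
    split_ifs
    · rcases Nat.mul_eq_zero.1 hx with h | h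
      · rw [h, zero_pow_neg hs2, zero_mul]
      · rw [h, hw]; simp
    · rfl)
  have h3 : ∑' x, φ x = ∑ d ∈ F, (d : ℝ) ^ (-(s' + u)) *
      ∑' m, (if Nat.Coprime m (c d) then hw s' u m else 0) := by
    rw [hφ.tsum_prod, tsum_eq_sum (s := F)]
    · refine Finset.sum_congr rfl fun d hd => ?_
      rw [← tsum_mul_left]
      refine tsum_congr fun m => ?_
      simp only [φ, hd, true_and]
      split_ifs <;> simp
    · intro d hd
      simp [φ, hd]
  have hA' : Summable (fun n : ℕ => if n ∈ A then (n : ℝ) ^ (-s') else 0) := by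
    refine Summable.of_nonneg_of_le (fun x => ?_) (fun x => ?_) (summable_pow hs)
    · split_ifs
      · exact Real.rpow_nonneg (Nat.cast_nonneg _) _
      · exact le_rfl
    · split_ifs
      · exact le_rfl
      · exact Real.rpow_nonneg (Nat.cast_nonneg _) _
  have h4 : ∑' x, φ x ≤ ∑' n : ℕ, (if n ∈ A then (n : ℝ) ^ (-s') else 0) := by
    rw [← h2.tsum_eq]
    refine h2.summable.tsum_le_tsum (fun n => ?_) hA'
    rcases eq_or_ne n 0 with rfl | hn
    · simp only [Nat.divisorsAntidiagonal_zero, Finset.sum_empty]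
      split_ifs
      · exact Real.rpow_nonneg (Nat.cast_nonneg _) _
      · exact le_rfl
    by_cases hnA : n ∈ A
    · rw [if_pos hnA, ← conv_hw (u := u) hn]
      refine Finset.sum_le_sum fun x _ => ?_
      simp only [φ]
      split_ifs
      · exact le_rfl
      · exact hx0 x
    · rw [if_neg hnA]
      refine le_of_eq (Finset.sum_eq_zero fun x hx => ?_)
      rw [Nat.mem_divisorsAntidiagonal] at hx
      simp only [φ]
      rw [if_neg]
      rintro ⟨hxF, hxc⟩
      refine hnA ?_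
      rw [← hx.1]
      exact hA _ hxF _ (fun h => hn (by rw [← hx.1, h, mul_zero])) hxc
  refine le_trans ?_ (h3 ▸ h4)
  rw [Finset.mul_sum]
  refine Finset.sum_le_sum fun d hd => ?_
  have h5 := tsum_coprime_ge hs hu (hc d hd)
  have h6 : 0 ≤ (d : ℝ) ^ (-(s' + u)) := Real.rpow_nonneg (Nat.cast_nonneg _) _
  have := mul_le_mul_of_nonneg_left h5 h6
  linarith

end Pool.Agent.Helper54.SigmaDens
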