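import Pool.Agent.Helper54.SigmaDens.Limit

/-!
# Existence of the analytic density
-/

namespace Pool.Agent.Helper54.SigmaDens

open Finset Filter Topology

open Classical in
/-- The number of elements of `A` in `[1, x]`. -/
noncomputable def N (A : Set ℕ) (x : ℕ) : ℕ := ((Icc 1 x).filter (· ∈ A)).card

open Classical in
lemma N_eq_count (A : Set ℕ) (x : ℕ) : N A x = Nat.count (fun n => n + 1 ∈ A) x := by
  rw [N, Nat.count_eq_card_filter_range]
  refine Finset.card_bij (fun n _ => n - 1) ?_ ?_ ?_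
  · intro n hn
    rw [Finset.mem_filter, Finset.mem_Icc] at hn
    rw [Finset.mem_filter, Finset.mem_range, Nat.sub_add_cancel hn.1.1]
    exact ⟨by omega, hn.2⟩
  · intro a ha b hb hab
    rw [Finset.mem_filter, Finset.mem_Icc] at ha hb
    omega
  · intro b hb
    rw [Finset.mem_filter, Finset.mem_range] at hb
    refine ⟨b + 1, ?_, by simp⟩
    rw [Finset.mem_filter, Finset.mem_Icc]
    exact ⟨⟨by omega, by omega⟩, hb.2⟩

lemma N_mono {A B : Set ℕ} (h : A ⊆ B) (x : ℕ) : N A x ≤ N B x := by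
  classical
  unfold N
  refine Finset.card_le_card ?_
  intro n hn
  rw [Finset.mem_filter] at hn ⊢
  exact ⟨hn.1, h hn.2⟩

lemma N_le (A : Set ℕ) (x : ℕ) : N A x ≤ x := by
  classical
  unfold N
  refine (Finset.card_filter_le _ _).trans ?_
  simp

lemma periodic_density (A : Set ℕ) {P : ℕ} (hP : 0 < P)
    (hper : ∀ n, 1 ≤ n → (n + P ∈ A ↔ n ∈ A)) :
    ∃ μ : ℝ, Tendsto (fun x : ℕ => (N A x : ℝ) / x) atTop (𝓝 μ) := by
  classical
  set p : ℕ → Prop := fun n => n + 1 ∈ A with hp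
  have hshift : ∀ k, p (P + k) ↔ p k := by
    intro k
    have := hper (k + 1) (by omega)
    simp only [hp]
    rw [← this]
    ring_nf
  have h1 : ∀ b, Nat.count p (P + b) = Nat.count p P + Nat.count p b := by
    intro b
    rw [Nat.count_add]
    congr 1
    simp only [hshift]
  have h2 : ∀ q r, Nat.count p (P * q + r) = q * Nat.count p P + Nat.count p r := by
    intro q
    induction q with
    | zero => intro r; simp
    | succ q ih =>
      intro r
      rw [show P * (q + 1) + r = P + (P * q + r) by ring, h1, ih]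
      ring
  refine ⟨(Nat.count p P : ℝ) / P, ?_⟩
  have hP' : (0 : ℝ) < P := by exact_mod_cast hP
  have h3 : ∀ x : ℕ, 0 < x → |(N A x : ℝ) / x - (Nat.count p P : ℝ) / P| ≤ P / x := by
    intro x hx
    have hx' : (0 : ℝ) < x := by exact_mod_cast hx
    have hxe : x = P * (x / P) + x % P := (Nat.div_add_mod x P).symm
    set q := x / P
    set r := x % P with hr
    have hrP : r < P := Nat.mod_lt _ hP
    have h4 : (N A x : ℝ) = q * Nat.count p P + Nat.count p r := by
      rw [N_eq_count, hxe]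
      have := h2 q r
      exact_mod_cast this
    have hxe' : (x : ℝ) = P * q + r := by exact_mod_cast hxe
    have hcr : (Nat.count p r : ℝ) ≤ r := by exact_mod_cast Nat.count_le (p := p)
    have hcP : (Nat.count p P : ℝ) ≤ P := by exact_mod_cast Nat.count_le (p := p)
    have hc0 : (0 : ℝ) ≤ Nat.count p r := Nat.cast_nonneg _
    have hcP0 : (0 : ℝ) ≤ Nat.count p P := Nat.cast_nonneg _
    have hrP' : (r : ℝ) ≤ P := by exact_mod_cast hrP.le
    have hr0 : (0 : ℝ) ≤ r := Nat.cast_nonneg _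
    have h5 : (N A x : ℝ) / x - (Nat.count p P : ℝ) / P =
        (Nat.count p r - r * (Nat.count p P / P)) / x := by
      rw [h4]
      field_simp
      rw [hxe']
      ring
    have h6 : r * ((Nat.count p P : ℝ) / P) ≤ r := by
      have : (Nat.count p P : ℝ) / P ≤ 1 := by
        rw [div_le_one hP']
        exact hcP
      nlinarith
    have h7 : 0 ≤ r * ((Nat.count p P : ℝ) / P) := by positivity
    rw [h5, abs_div, abs_of_pos hx']
    refine div_le_div_of_nonneg_right ?_ hx'.le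
    rw [abs_le]
    constructor <;> linarith
  rw [Metric.tendsto_atTop]
  intro ε hε
  obtain ⟨M, hM⟩ := exists_nat_gt (P / ε)
  refine ⟨M + 1, fun x hx => ?_⟩
  have hx0 : 0 < x := by omega
  have hx' : (0 : ℝ) < x := by exact_mod_cast hx0
  rw [Real.dist_eq]
  refine (h3 x hx0).trans_lt ?_
  rw [div_lt_iff₀ hx']
  rw [div_lt_iff₀ hε] at hM
  have : (M : ℝ) ≤ x := by exact_mod_cast (by omega : M ≤ x)
  nlinarith

lemma LSeries_eq_Fs (A : Set ℕ) [DecidablePred (· ∈ A)] {s : ℝ} (hs : 1 < s) :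
    LSeries (fun n => (((if n ∈ A then 1 else 0 : ℝ)) : ℂ)) (s : ℂ) = ((Fs A s : ℝ) : ℂ) := by
  rw [LSeries, Fs, Complex.ofReal_tsum]
  refine tsum_congr fun n => ?_
  rcases eq_or_ne n 0 with rfl | hn
  · rw [LSeries.term_zero, zero_pow_neg hs]
    simp
  · rw [LSeries.term_of_ne_zero hn]
    by_cases h : n ∈ A
    · simp only [h, if_true]
      rw [Real.rpow_neg (Nat.cast_nonneg _), Complex.ofReal_inv,
        Complex.ofReal_cpow (Nat.cast_nonneg _)]
      simp
    · simp [h]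

lemma abelian (A : Set ℕ) {μ : ℝ} (h : Tendsto (fun x : ℕ => (N A x : ℝ) / x) atTop (𝓝 μ)) :
    Tendsto (fun s : ℝ => (s - 1) * Fs A s) (𝓝[>] 1) (𝓝 μ) := by
  classical
  have h1 := LSeries_tendsto_sub_mul_nhds_one_of_tendsto_sum_div_and_nonneg
    (fun n => if n ∈ A then (1 : ℝ) else 0) (l := μ) (by
      refine h.congr fun x => ?_
      rw [N, Finset.sum_boole]) (fun n => by split_ifs <;> norm_num)
  have h2 : Tendsto (fun s : ℝ => (((s - 1) * Fs A s : ℝ) : ℂ)) (𝓝[>] 1) (𝓝 (μ : ℂ)) := by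
    refine h1.congr' ?_
    filter_upwards [self_mem_nhdsWithin] with s hs
    simp only [Set.mem_Ioi] at hs
    rw [LSeries_eq_Fs A hs]
    push_cast
    ring
  have := (Complex.continuous_re.tendsto (μ : ℂ)).comp h2
  simpa [Function.comp_def] using this

/-- The set of the numbers `d i * m` with `i ∈ F` and `m` coprime to `c i`. -/
def clg {ι : Type*} (F : Finset ι) (D c : ι → ℕ) : Set ℕ :=
  {n | ∃ i ∈ F, ∃ m, m ≠ 0 ∧ Nat.Coprime m (c i) ∧ n = D i * m}

lemma clg_density {ι : Type*} (F : Finset ι) (D c : ι → ℕ) (hF : ∀ i ∈ F, 1 ≤ D i ∧ c i ≠ 0) :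
    ∃ μ : ℝ, Tendsto (fun x : ℕ => (N (clg F D c) x : ℝ) / x) atTop (𝓝 μ) := by
  have hP : 0 < ∏ i ∈ F, D i * c i := Finset.prod_pos fun i hi =>
    Nat.mul_pos (hF i hi).1 (Nat.pos_of_ne_zero (hF i hi).2)
  refine periodic_density _ hP ?_
  intro n hn
  set P := ∏ i ∈ F, D i * c i with hPdef
  have hdvd : ∀ i ∈ F, ∃ k, P = D i * (c i * k) := by
    intro i hi
    obtain ⟨k, hk⟩ := Finset.dvd_prod_of_mem (fun i => D i * c i) hi
    exact ⟨k, by rw [hPdef, hk]; ring⟩
  constructor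
  · rintro ⟨d, hd, m, hm, hco, hnm⟩
    obtain ⟨k, hk⟩ := hdvd d hd
    have hd1 := (hF d hd).1
    have h1 : c d * k ≤ m := by
      by_contra hlt
      push Not at hlt
      have : D d * m < D d * (c d * k) := Nat.mul_lt_mul_of_pos_left hlt hd1
      omega
    refine ⟨d, hd, m - c d * k, ?_, ?_, ?_⟩
    · intro h0
      have : m = c d * k := by omega
      rw [this, ← hk] at hnm
      omega
    · have h2 : m = (m - c d * k) + c d * k := by omega
      rw [h2] at hco
      rwa [Nat.coprime_add_mul_left_left] at hco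
    · rw [Nat.mul_sub, ← hnm, ← hk]
      omega
  · rintro ⟨d, hd, m, hm, hco, hnm⟩
    obtain ⟨k, hk⟩ := hdvd d hd
    refine ⟨d, hd, m + c d * k, by omega, ?_, ?_⟩
    · rwa [Nat.coprime_add_mul_left_left]
    · rw [hnm, hk]
      ring

/-- The multiplicative closure of a finite set. -/
def cl (F : Finset ℕ) (c : ℕ → ℕ) : Set ℕ :=
  {n | ∃ d ∈ F, ∃ m, m ≠ 0 ∧ Nat.Coprime m (c d) ∧ n = d * m}

lemma cl_density (F : Finset ℕ) (c : ℕ → ℕ) (hF : ∀ d ∈ F, 1 ≤ d ∧ c d ≠ 0) :
    ∃ μ : ℝ, Tendsto (fun x : ℕ => (N (cl F c) x : ℝ) / x) atTop (𝓝 μ) :=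
  clg_density F id c hF

lemma cl_subset {S : Set ℕ} {c : ℕ → ℕ}
    (hS : ∀ d ∈ S, ∀ m, m ≠ 0 → Nat.Coprime m (c d) → d * m ∈ S) {F : Finset ℕ}
    (hF : (F : Set ℕ) ⊆ S) : cl F c ⊆ S := by
  rintro n ⟨d, hd, m, hm, hco, rfl⟩
  exact hS d (hF hd) m hm hco

open Classical in
/-- The analytic density of a set closed under multiplication by coprime integers exists and is at
most its lower natural density. -/
theorem core (S : Set ℕ) (c : ℕ → ℕ) (K : ℕ)
    (hc : ∀ d ∈ S, 1 ≤ d ∧ c d ≠ 0 ∧ c d ≤ d ^ K)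
    (hS : ∀ d ∈ S, ∀ m, m ≠ 0 → Nat.Coprime m (c d) → d * m ∈ S) :
    ∃ δ : ℝ, Tendsto (fun s : ℝ => (s - 1) * Fs S s) (𝓝[>] 1) (𝓝 δ) ∧
      (∀ μ < δ, ∀ᶠ x : ℕ in atTop, μ < (N S x : ℝ) / x) ∧
      (∀ μ < δ, ∃ F : Finset ℕ, (F : Set ℕ) ⊆ S ∧ ∃ ν, μ < ν ∧
        Tendsto (fun x : ℕ => (N (cl F c) x : ℝ) / x) atTop (𝓝 ν)) := by
  -- the densities of the closures of finite subsets
  let D : Set ℝ := {μ | ∃ F : Finset ℕ, (F : Set ℕ) ⊆ S ∧
    Tendsto (fun x : ℕ => (N (cl F c) x : ℝ) / x) atTop (𝓝 μ)}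
  have hex : ∀ F : Finset ℕ, (F : Set ℕ) ⊆ S → ∃ μ ∈ D,
      Tendsto (fun x : ℕ => (N (cl F c) x : ℝ) / x) atTop (𝓝 μ) := by
    intro F hF
    obtain ⟨μ, hμ⟩ := cl_density F c fun d hd => ⟨(hc d (hF hd)).1, (hc d (hF hd)).2.1⟩
    exact ⟨μ, ⟨F, hF, hμ⟩, hμ⟩
  have hne : D.Nonempty := by
    obtain ⟨μ, hμ, _⟩ := hex ∅ (by simp)
    exact ⟨μ, hμ⟩
  have hle1 : ∀ μ ∈ D, μ ≤ 1 := by
    rintro μ ⟨F, _, hμ⟩
    refine le_of_tendsto hμ ?_
    filter_upwards with x
    refine div_le_one_of_le₀ ?_ (Nat.cast_nonneg _)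
    exact_mod_cast N_le _ _
  have hge0 : ∀ μ ∈ D, 0 ≤ μ := by
    rintro μ ⟨F, _, hμ⟩
    refine ge_of_tendsto hμ ?_
    filter_upwards with x
    positivity
  have hbdd : BddAbove D := ⟨1, hle1⟩
  have hδ1 : sSup D ≤ 1 := csSup_le hne hle1
  have hδ0 : 0 ≤ sSup D := by
    obtain ⟨μ, hμ⟩ := hne
    exact (hge0 μ hμ).trans (le_csSup hbdd hμ)
  refine ⟨sSup D, ?_, ?_, ?_⟩
  · -- convergence
    have hlow : ∀ ε > 0, ∀ᶠ s in 𝓝[>] (1 : ℝ), sSup D - ε < (s - 1) * Fs S s := by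
      intro ε hε
      obtain ⟨ν, ⟨F, hF, hν⟩, hμν⟩ := exists_lt_of_lt_csSup hne (show sSup D - ε < sSup D by linarith)
      have h1 := abelian _ hν
      filter_upwards [h1.eventually (lt_mem_nhds hμν), self_mem_nhdsWithin] with s h2 h3
      simp only [Set.mem_Ioi] at h3
      refine h2.trans_le ?_
      exact mul_le_mul_of_nonneg_left (Fs_mono (cl_subset hS hF) h3) (by linarith)
    have hup : ∀ η > 0, ∀ᶠ s in 𝓝[>] (1 : ℝ), (s - 1) * Fs S s ≤ (1 + η) * (sSup D + η) := by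
      intro η hη
      have e1 : ∀ᶠ s in 𝓝[>] (1 : ℝ), (s - 1) * Z s < 1 + η :=
        tendsto_Z.eventually (gt_mem_nhds (by linarith))
      filter_upwards [almost_mono K hη, e1, self_mem_nhdsWithin] with s h1 h2 h3
      simp only [Set.mem_Ioi] at h3
      have hZ := one_le_Z h3
      have h4 : ∀ F : Finset ℕ, (F : Set ℕ) ⊆ S → ∑ d ∈ F, (d : ℝ) ^ (-s) ≤ (sSup D + η) * Z s := by
        intro F hF
        obtain ⟨μ, hμD, hμ⟩ := hex F hF
        have h5 : Tendsto (fun s : ℝ => Fs (cl F c) s / Z s) (𝓝[>] 1) (𝓝 μ) := by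
          have := (abelian _ hμ).div tendsto_Z one_ne_zero
          rw [div_one] at this
          refine this.congr' ?_
          filter_upwards [self_mem_nhdsWithin] with t ht
          simp only [Set.mem_Ioi] at ht
          simp only [Pi.div_apply]
          rw [mul_div_mul_left _ _ (by linarith)]
        have h6 : (∑ d ∈ F, (d : ℝ) ^ (-s)) / Z s - η ≤ μ := by
          refine ge_of_tendsto h5 ?_
          have e2 : ∀ᶠ s' in 𝓝[>] (1 : ℝ), s' < s := nhdsWithin_le_nhds (gt_mem_nhds h3)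
          filter_upwards [e2, self_mem_nhdsWithin] with s' h7 h8
          exact h1 s' h8 h7 F c (fun d hd => hc d (hF hd)) _
            (fun d hd m hm hco => ⟨d, hd, m, hm, hco, rfl⟩)
        have h7 : (∑ d ∈ F, (d : ℝ) ^ (-s)) / Z s ≤ sSup D + η := by
          have := le_csSup hbdd hμD
          linarith
        rwa [div_le_iff₀ (by linarith)] at h7
      have h5 : Fs S s ≤ (sSup D + η) * Z s := by
        rw [Fs]
        refine (summable_Fs S h3).tsum_le_of_sum_le fun G => ?_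
        rw [← Finset.sum_filter]
        refine h4 _ ?_
        intro n hn
        exact (Finset.mem_filter.1 (Finset.mem_coe.1 hn)).2
      calc (s - 1) * Fs S s ≤ (s - 1) * ((sSup D + η) * Z s) :=
            mul_le_mul_of_nonneg_left h5 (by linarith)
        _ = ((s - 1) * Z s) * (sSup D + η) := by ring
        _ ≤ (1 + η) * (sSup D + η) := mul_le_mul_of_nonneg_right h2.le (by linarith)
    rw [tendsto_order]
    constructor
    · intro a ha
      filter_upwards [hlow (sSup D - a) (by linarith)] with s hs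
      linarith
    · intro a ha
      have h1 : Tendsto (fun η : ℝ => (1 + η) * (sSup D + η)) (𝓝[>] 0) (𝓝 ((1 + 0) * (sSup D + 0))) := by
        have : Continuous fun η : ℝ => (1 + η) * (sSup D + η) := by fun_prop
        exact (this.tendsto 0).mono_left nhdsWithin_le_nhds
      rw [show (1 + 0) * (sSup D + 0) = sSup D by ring] at h1
      obtain ⟨η, hη1, hη2⟩ := ((h1.eventually (gt_mem_nhds ha)).and self_mem_nhdsWithin).exists
      filter_upwards [hup η hη2] with s hs
      exact hs.trans_lt hη1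
  · intro μ hμ
    obtain ⟨ν, ⟨F, hF, hν⟩, hμν⟩ := exists_lt_of_lt_csSup hne hμ
    filter_upwards [hν.eventually (lt_mem_nhds hμν)] with x hx
    refine hx.trans_le ?_
    exact div_le_div_of_nonneg_right (by exact_mod_cast N_mono (cl_subset hS hF) x)
      (Nat.cast_nonneg _)
  · intro μ hμ
    obtain ⟨ν, ⟨F, hF, hν⟩, hμν⟩ := exists_lt_of_lt_csSup hne hμ
    exact ⟨F, hF, ν, hμν, hν⟩

end Pool.Agent.Helper54.SigmaDens
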