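import Pool.Agent.Helper54.SigmaDens.Conv

/-!
# Almost monotonicity of the analytic density
-/

namespace Pool.Agent.Helper54.SigmaDens

open Finset Filter Topology

open Classical in
/-- The Dirichlet series of (the indicator function of) a set. -/
noncomputable def Fs (A : Set ℕ) (s : ℝ) : ℝ := ∑' n : ℕ, (if n ∈ A then (n : ℝ) ^ (-s) else 0)

open Classical in
lemma summable_Fs (A : Set ℕ) {s : ℝ} (hs : 1 < s) :
    Summable (fun n : ℕ => if n ∈ A then (n : ℝ) ^ (-s) else 0) := by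
  refine Summable.of_nonneg_of_le (fun x => ?_) (fun x => ?_) (summable_pow hs)
  · split_ifs
    · exact Real.rpow_nonneg (Nat.cast_nonneg _) _
    · exact le_rfl
  · split_ifs
    · exact le_rfl
    · exact Real.rpow_nonneg (Nat.cast_nonneg _) _

lemma Fs_nonneg (A : Set ℕ) (s : ℝ) : 0 ≤ Fs A s := tsum_nonneg fun n => by
  split_ifs
  · exact Real.rpow_nonneg (Nat.cast_nonneg _) _
  · exact le_rfl

lemma Fs_mono {A B : Set ℕ} (h : A ⊆ B) {s : ℝ} (hs : 1 < s) : Fs A s ≤ Fs B s := by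
  refine (summable_Fs A hs).tsum_le_tsum (fun n => ?_) (summable_Fs B hs)
  by_cases hA : n ∈ A
  · rw [if_pos hA, if_pos (h hA)]
  · rw [if_neg hA]
    split_ifs
    · exact Real.rpow_nonneg (Nat.cast_nonneg _) _
    · exact le_rfl

lemma Fs_univ (s : ℝ) : Fs Set.univ s = Z s := by simp [Fs, Z]

lemma one_le_Z {s : ℝ} (hs : 1 < s) : 1 ≤ Z s := by
  have := (summable_pow hs).le_tsum 1 (fun n _ => Real.rpow_nonneg (Nat.cast_nonneg _) _)
  simpa [Z] using this

lemma tendsto_Z : Tendsto (fun s : ℝ => (s - 1) * Z s) (𝓝[>] 1) (𝓝 1) := by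
  refine tendsto_sub_mul_tsum_nat_rpow.congr fun s => ?_
  congr 1
  refine tsum_congr fun n => ?_
  rw [Real.rpow_neg (Nat.cast_nonneg _), one_div]

lemma tendsto_half : Tendsto (fun s : ℝ => (s + 1) / 2) (𝓝[>] 1) (𝓝[>] 1) := by
  refine tendsto_nhdsWithin_iff.2 ⟨?_, ?_⟩
  · have : Tendsto (fun s : ℝ => (s + 1) / 2) (𝓝 1) (𝓝 ((1 + 1) / 2)) :=
      (continuous_id.add continuous_const).div_const 2 |>.tendsto 1
    rw [show ((1 : ℝ) + 1) / 2 = 1 by norm_num] at this
    exact this.mono_left nhdsWithin_le_nhds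
  · filter_upwards [self_mem_nhdsWithin] with s hs
    simp only [Set.mem_Ioi] at hs ⊢
    linarith

lemma eventually_Z_half : ∀ᶠ s in 𝓝[>] (1 : ℝ), Z ((s + 1) / 2) ≤ 3 * Z s := by
  have h1 := tendsto_Z
  have h2 := tendsto_Z.comp tendsto_half
  have e1 : ∀ᶠ s in 𝓝[>] (1 : ℝ), 9 / 10 < (s - 1) * Z s := h1.eventually (lt_mem_nhds (by norm_num))
  have e2 : ∀ᶠ s in 𝓝[>] (1 : ℝ), ((s + 1) / 2 - 1) * Z ((s + 1) / 2) < 11 / 10 :=
    h2.eventually (gt_mem_nhds (by norm_num))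
  filter_upwards [e1, e2, self_mem_nhdsWithin] with s h3 h4 h5
  simp only [Set.mem_Ioi] at h5
  have h6 : (s - 1) * Z ((s + 1) / 2) < 22 / 10 := by
    have : ((s + 1) / 2 - 1) * Z ((s + 1) / 2) = (s - 1) * Z ((s + 1) / 2) / 2 := by ring
    rw [this] at h4
    linarith
  have h7 : (s - 1) * Z ((s + 1) / 2) ≤ (s - 1) * (3 * Z s) := by
    have : (s - 1) * (3 * Z s) = 3 * ((s - 1) * Z s) := by ring
    rw [this]
    linarith
  exact le_of_mul_le_mul_left h7 (by linarith)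

lemma om_le {c : ℕ} (hc : c ≠ 0) {y : ℕ} (hy : 0 < y) : om c ≤ y + Real.log c / y := by
  have hy' : (0 : ℝ) < y := by exact_mod_cast hy
  have h1 : ∀ p ∈ c.primeFactors, Real.log p / p ≤
      (if p ≤ y then 1 else 0) + Real.log p / y := by
    intro p hp
    have hp' := Nat.prime_of_mem_primeFactors hp
    have hp0 : (0 : ℝ) < p := by exact_mod_cast hp'.pos
    have hl : 0 ≤ Real.log p := Real.log_natCast_nonneg p
    split_ifs with h
    · have h2 : Real.log p / p ≤ 1 := by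
        rw [div_le_one hp0]
        exact Real.log_le_self hp0.le
      have h3 : 0 ≤ Real.log p / y := by positivity
      linarith
    · rw [zero_add]
      push Not at h
      exact div_le_div_of_nonneg_left hl hy' (by exact_mod_cast h.le)
  have h2 : om c ≤ ∑ p ∈ c.primeFactors, ((if p ≤ y then (1 : ℝ) else 0) + Real.log p / y) :=
    Finset.sum_le_sum h1
  rw [Finset.sum_add_distrib] at h2
  have h3 : ∑ p ∈ c.primeFactors, (if p ≤ y then (1 : ℝ) else 0) ≤ y := by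
    rw [Finset.sum_boole]
    have : (c.primeFactors.filter (fun p => p ≤ y)).card ≤ (Finset.Icc 1 y).card := by
      apply Finset.card_le_card
      intro p hp
      rw [Finset.mem_filter] at hp
      rw [Finset.mem_Icc]
      exact ⟨(Nat.prime_of_mem_primeFactors hp.1).one_le, hp.2⟩
    rw [Nat.card_Icc] at this
    exact_mod_cast this
  have h4 : ∑ p ∈ c.primeFactors, Real.log p / y ≤ Real.log c / y := by
    rw [← Finset.sum_div]
    refine div_le_div_of_nonneg_right ?_ hy'.le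
    rw [← Real.log_prod (fun p hp => by
      have := (Nat.prime_of_mem_primeFactors hp).ne_zero
      exact_mod_cast this)]
    have h5 : ∏ p ∈ c.primeFactors, p ≤ c := Nat.le_of_dvd (Nat.pos_of_ne_zero hc)
      (Nat.prod_primeFactors_dvd c)
    have h6 : (∏ p ∈ c.primeFactors, (p : ℝ)) ≤ c := by
      have := (Nat.cast_le (α := ℝ)).2 h5
      rwa [Nat.cast_prod] at this
    refine Real.log_le_log ?_ h6
    exact Finset.prod_pos fun p hp => by
      exact_mod_cast (Nat.prime_of_mem_primeFactors hp).pos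
  linarith

lemma sum_log_le {s : ℝ} (hs : 1 < s) (F : Finset ℕ) :
    ∑ d ∈ F, (d : ℝ) ^ (-s) * Real.log d ≤ 2 / (s - 1) * Z ((s + 1) / 2) := by
  have hs2 : 1 < (s + 1) / 2 := by linarith
  have h1 : ∀ d ∈ F, (d : ℝ) ^ (-s) * Real.log d ≤ 2 / (s - 1) * (d : ℝ) ^ (-((s + 1) / 2)) := by
    intro d _
    rcases eq_or_ne d 0 with rfl | hd
    · simp
      exact mul_nonneg (div_nonneg (by norm_num) (by linarith)) (Real.rpow_nonneg le_rfl _)
    · have hd0 : (0 : ℝ) < d := by exact_mod_cast Nat.pos_of_ne_zero hd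
      have h2 := Real.log_le_rpow_div hd0.le (show 0 < (s - 1) / 2 by linarith)
      calc (d : ℝ) ^ (-s) * Real.log d ≤ (d : ℝ) ^ (-s) * ((d : ℝ) ^ ((s - 1) / 2) / ((s - 1) / 2)) :=
            mul_le_mul_of_nonneg_left h2 (Real.rpow_nonneg hd0.le _)
        _ = 2 / (s - 1) * ((d : ℝ) ^ (-s) * (d : ℝ) ^ ((s - 1) / 2)) := by
            field_simp
        _ = _ := by
            rw [← Real.rpow_add hd0]
            congr 2
            ring
  refine (Finset.sum_le_sum h1).trans ?_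
  rw [← Finset.mul_sum]
  refine mul_le_mul_of_nonneg_left ?_ (div_nonneg (by norm_num) (by linarith))
  exact (summable_pow hs2).sum_le_tsum F (fun n _ => Real.rpow_nonneg (Nat.cast_nonneg _) _)

lemma sum_le_Z {s : ℝ} (hs : 1 < s) (F : Finset ℕ) : ∑ d ∈ F, (d : ℝ) ^ (-s) ≤ Z s :=
  (summable_pow hs).sum_le_tsum F (fun _ _ => Real.rpow_nonneg (Nat.cast_nonneg _) _)

/-- **Almost monotonicity.** -/
theorem almost_mono (K : ℕ) {η : ℝ} (hη : 0 < η) : ∀ᶠ s in 𝓝[>] (1 : ℝ),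
    ∀ s', 1 < s' → s' < s → ∀ (F : Finset ℕ) (c : ℕ → ℕ),
      (∀ d ∈ F, 1 ≤ d ∧ c d ≠ 0 ∧ c d ≤ d ^ K) → ∀ A : Set ℕ,
      (∀ d ∈ F, ∀ m, m ≠ 0 → Nat.Coprime m (c d) → d * m ∈ A) →
      (∑ d ∈ F, (d : ℝ) ^ (-s)) / Z s - η ≤ Fs A s' / Z s' := by
  obtain ⟨y, hy⟩ := exists_nat_gt (24 * K / η)
  have hy0 : (0 : ℝ) < y := lt_of_le_of_lt (by positivity) hy
  have hyn : 0 < y := by exact_mod_cast hy0
  have e1 : ∀ᶠ s in 𝓝[>] (1 : ℝ), s < 1 + η / (4 * y) := by
    refine nhdsWithin_le_nhds (gt_mem_nhds ?_)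
    have : 0 < η / (4 * y) := by positivity
    linarith
  filter_upwards [eventually_Z_half, e1, self_mem_nhdsWithin] with s h1 h2 h3
  intro s' hs' hss F c hc A hA
  simp only [Set.mem_Ioi] at h3
  have hu : 0 ≤ s - s' := by linarith
  have ht := transfer hs' hu F c (fun d hd => (hc d hd).2.1) A hA
  have hZ := Z_mul hs' hu
  rw [show s' + (s - s') = s by ring] at ht hZ
  have hZs := one_le_Z h3
  have hZs' := one_le_Z hs'
  set H := ∑' m, hw s' (s - s') m with hH
  have hH0 : 0 < H := by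
    rcases le_or_gt H 0 with h | h
    · have : Z s * H ≤ 0 := mul_nonpos_of_nonneg_of_nonpos (by linarith) h
      linarith
    · exact h
  -- divide by `Z s' = Z s * H`
  have h4 : (∑ d ∈ F, (d : ℝ) ^ (-s) * (1 - 2 * (s - s') * om (c d))) / Z s ≤ Fs A s' / Z s' := by
    rw [← hZ, div_le_div_iff₀ (by linarith) (mul_pos (by linarith) hH0)]
    have ht' : H * ∑ d ∈ F, (d : ℝ) ^ (-s) * (1 - 2 * (s - s') * om (c d)) ≤ Fs A s' := ht
    have := mul_le_mul_of_nonneg_left ht' (show 0 ≤ Z s by linarith)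
    have e2 : (∑ d ∈ F, (d : ℝ) ^ (-s) * (1 - 2 * (s - s') * om (c d))) * (Z s * H) =
      Z s * (H * ∑ d ∈ F, (d : ℝ) ^ (-s) * (1 - 2 * (s - s') * om (c d))) := by ring
    rw [e2, mul_comm (Fs A s')]
    exact this
  refine le_trans ?_ h4
  have h5 : ∀ d ∈ F, (d : ℝ) ^ (-s) * om (c d) ≤
      (d : ℝ) ^ (-s) * y + (K / y) * ((d : ℝ) ^ (-s) * Real.log d) := by
    intro d hd
    obtain ⟨hd1, hd2, hd3⟩ := hc d hd
    have h6 := om_le hd2 hyn
    have h7 : Real.log (c d) ≤ K * Real.log d := by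
      rw [← Real.log_pow]
      refine Real.log_le_log (by exact_mod_cast Nat.pos_of_ne_zero hd2) ?_
      exact_mod_cast hd3
    have h8 : Real.log (c d) / y ≤ K * Real.log d / y := div_le_div_of_nonneg_right h7 hy0.le
    have h9 : om (c d) ≤ y + K * Real.log d / y := by linarith
    calc (d : ℝ) ^ (-s) * om (c d) ≤ (d : ℝ) ^ (-s) * (y + K * Real.log d / y) :=
          mul_le_mul_of_nonneg_left h9 (Real.rpow_nonneg (Nat.cast_nonneg _) _)
      _ = _ := by ring
  have h6 : ∑ d ∈ F, (d : ℝ) ^ (-s) * om (c d) ≤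
      Z s * y + (K / y) * (2 / (s - 1) * (3 * Z s)) := by
    refine (Finset.sum_le_sum h5).trans ?_
    rw [Finset.sum_add_distrib, ← Finset.sum_mul, ← Finset.mul_sum]
    have h7 := sum_log_le h3 F
    have h8 := sum_le_Z h3 F
    have h9 : 2 / (s - 1) * Z ((s + 1) / 2) ≤ 2 / (s - 1) * (3 * Z s) :=
      mul_le_mul_of_nonneg_left h1 (div_nonneg (by norm_num) (by linarith))
    have h10 := mul_le_mul_of_nonneg_right h8 hy0.le
    have h11 := mul_le_mul_of_nonneg_left (h7.trans h9) (show (0 : ℝ) ≤ K / y by positivity)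
    linarith
  have h7 : ∑ d ∈ F, (d : ℝ) ^ (-s) * (1 - 2 * (s - s') * om (c d)) =
      ∑ d ∈ F, (d : ℝ) ^ (-s) - 2 * (s - s') * ∑ d ∈ F, (d : ℝ) ^ (-s) * om (c d) := by
    rw [Finset.mul_sum, ← Finset.sum_sub_distrib]
    refine Finset.sum_congr rfl fun d _ => ?_
    ring
  rw [h7, sub_div]
  have hom0 : 0 ≤ ∑ d ∈ F, (d : ℝ) ^ (-s) * om (c d) := by
    refine Finset.sum_nonneg fun d _ => mul_nonneg (Real.rpow_nonneg (Nat.cast_nonneg _) _) ?_
    refine Finset.sum_nonneg fun p _ => div_nonneg (Real.log_natCast_nonneg p) (Nat.cast_nonneg _)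
  have h8 : 2 * (s - s') * ∑ d ∈ F, (d : ℝ) ^ (-s) * om (c d) ≤
      2 * (s - 1) * (Z s * y + (K / y) * (2 / (s - 1) * (3 * Z s))) := by
    have h9 : 2 * (s - s') * ∑ d ∈ F, (d : ℝ) ^ (-s) * om (c d) ≤
      2 * (s - 1) * ∑ d ∈ F, (d : ℝ) ^ (-s) * om (c d) :=
      mul_le_mul_of_nonneg_right (by linarith) hom0
    exact h9.trans (mul_le_mul_of_nonneg_left h6 (by linarith))
  have h9 : 2 * (s - 1) * (Z s * y + (K / y) * (2 / (s - 1) * (3 * Z s))) =
      (2 * (s - 1) * y + 12 * K / y) * Z s := by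
    have : s - 1 ≠ 0 := by linarith
    field_simp
    ring
  rw [h9] at h8
  have h10 : 2 * (s - s') * (∑ d ∈ F, (d : ℝ) ^ (-s) * om (c d)) / Z s ≤
      2 * (s - 1) * y + 12 * K / y := by
    rw [div_le_iff₀ (by linarith)]
    exact h8
  have h11 : 2 * (s - 1) * y ≤ η / 2 := by
    have : s - 1 < η / (4 * y) := by linarith
    have h12 : (s - 1) * (4 * y) < η := by
      rwa [lt_div_iff₀ (by positivity)] at this
    linarith
  have h12 : 12 * K / y ≤ η / 2 := by
    rw [div_lt_iff₀ hη] at hy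
    rw [div_le_iff₀ hy0]
    linarith
  linarith

end Pool.Agent.Helper54.SigmaDens
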