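import Pool.Agent.Helper54.SigmaDens.Tauber

/-!
# Logarithmic density and lower natural density
-/

namespace Pool.Agent.Helper54.SigmaDens

open Finset Filter Topology

lemma tendsto_harmonic : Tendsto (fun x : ℕ => (∑ n ∈ Icc 1 x, (1 : ℝ) / n) / Real.log x) atTop (𝓝 1) := by
  have e : ∀ z : ℕ, (harmonic z : ℝ) = ∑ n ∈ Icc 1 z, (1 : ℝ) / n := by
    intro z
    rw [harmonic_eq_sum_Icc]
    push_cast
    refine Finset.sum_congr rfl fun n _ => ?_
    rw [one_div]
  have h1 : Tendsto (fun x : ℕ => 1 + 1 / Real.log x) atTop (𝓝 (1 + 0)) :=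
    tendsto_const_nhds.add (tendsto_nhdsWithin_iff.1 tendsto_u).1
  rw [add_zero] at h1
  refine tendsto_of_tendsto_of_tendsto_of_le_of_le' (tendsto_const_nhds (x := (1 : ℝ))) h1 ?_ ?_
  · filter_upwards [eventually_ge_atTop 2] with x hx
    have hl : 0 < Real.log x := Real.log_pos (by exact_mod_cast hx)
    rw [← e, le_div_iff₀ hl, one_mul]
    refine le_trans ?_ (log_add_one_le_harmonic x)
    refine Real.log_le_log (by exact_mod_cast (by omega : 0 < x)) ?_
    push_cast
    linarith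
  · filter_upwards [eventually_ge_atTop 2] with x hx
    have hl : 0 < Real.log x := Real.log_pos (by exact_mod_cast hx)
    rw [← e, div_le_iff₀ hl]
    have := harmonic_le_one_add_log x
    have h2 : (1 + 1 / Real.log x) * Real.log x = 1 + Real.log x := by
      field_simp
      ring
    rw [h2]
    exact this

open Classical in
lemma log_density (A : Set ℕ) {δ : ℝ}
    (h : Tendsto (fun s : ℝ => (s - 1) * Fs A s) (𝓝[>] 1) (𝓝 δ)) :
    Tendsto (fun x : ℕ => (∑ n ∈ (Icc 1 x).filter (· ∈ A), (1 : ℝ) / n) / Real.log x)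
      atTop (𝓝 δ) := by
  have h1 := (tauber A h).add (tendsto_harmonic.const_mul δ)
  rw [zero_add, mul_one] at h1
  refine h1.congr fun x => ?_
  rw [← mul_div_assoc, ← add_div, Finset.mul_sum, ← Finset.sum_add_distrib, Finset.sum_filter]
  congr 1
  refine Finset.sum_congr rfl fun n _ => ?_
  rw [sg, Set.indicator_apply]
  split_ifs <;> ring

open Classical in
lemma N_succ (A : Set ℕ) (x : ℕ) : N A (x + 1) = N A x + if x + 1 ∈ A then 1 else 0 := by
  rw [N_eq_count, N_eq_count, Nat.count_succ]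

open Classical in
lemma partial_summation (A : Set ℕ) (x : ℕ) :
    ∑ n ∈ (Icc 1 x).filter (· ∈ A), (1 : ℝ) / n =
      ∑ n ∈ Icc 1 x, (N A n : ℝ) * (1 / n - 1 / (n + 1)) + N A x / (x + 1) := by
  induction x with
  | zero => simp [N]
  | succ x ih =>
    have h1 : ∑ n ∈ (Icc 1 (x + 1)).filter (· ∈ A), (1 : ℝ) / n =
        ∑ n ∈ (Icc 1 x).filter (· ∈ A), (1 : ℝ) / n + (if x + 1 ∈ A then 1 / ((x : ℝ) + 1) else 0) := by
      rw [Finset.sum_filter, Finset.sum_filter, Finset.sum_Icc_succ_top (by omega)]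
      push_cast
      rfl
    rw [h1, ih, Finset.sum_Icc_succ_top (by omega)]
    have h2 : (N A (x + 1) : ℝ) = N A x + if x + 1 ∈ A then 1 else 0 := by
      rw [N_succ]
      push_cast
      rfl
    have h3 : (if x + 1 ∈ A then 1 / ((x : ℝ) + 1) else 0) =
        (N A (x + 1) : ℝ) / (x + 1) - N A x / (x + 1) := by
      rw [h2]
      split_ifs <;> ring
    rw [h3]
    push_cast
    ring

/-- The lower natural density is at most the logarithmic density. -/
lemma lower_le (A : Set ℕ) {δ μ : ℝ}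
    (h : Tendsto (fun s : ℝ => (s - 1) * Fs A s) (𝓝[>] 1) (𝓝 δ))
    (hμ : ∀ᶠ x : ℕ in atTop, μ ≤ (N A x : ℝ) / x) : μ ≤ δ := by
  classical
  rcases le_or_gt μ 0 with hμ0 | hμ0
  · refine hμ0.trans (ge_of_tendsto h ?_)
    filter_upwards [self_mem_nhdsWithin] with s hs
    simp only [Set.mem_Ioi] at hs
    exact mul_nonneg (by linarith) (Fs_nonneg _ _)
  obtain ⟨M, hM⟩ := eventually_atTop.1 hμ
  have h1 := log_density A h
  -- lower bound of the logarithmic sums
  have h2 : ∀ᶠ x : ℕ in atTop, μ - μ * (1 + Real.log (M + 1)) * (1 / Real.log x) ≤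
      (∑ n ∈ (Icc 1 x).filter (· ∈ A), (1 : ℝ) / n) / Real.log x := by
    filter_upwards [eventually_ge_atTop (M + 2)] with x hx
    have hx2 : 2 ≤ x := by omega
    have hl : 0 < Real.log x := Real.log_pos (by exact_mod_cast hx2)
    have h3 : μ * ∑ n ∈ Ioc M x, (1 : ℝ) / (n + 1) ≤
        ∑ n ∈ (Icc 1 x).filter (· ∈ A), (1 : ℝ) / n := by
      rw [partial_summation]
      have h4 : ∑ n ∈ Ioc M x, μ * ((1 : ℝ) / (n + 1)) ≤
          ∑ n ∈ Icc 1 x, (N A n : ℝ) * (1 / n - 1 / (n + 1)) := by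
        refine le_trans (Finset.sum_le_sum (g := fun n : ℕ => (N A n : ℝ) * (1 / n - 1 / (n + 1)))
          fun n hn => ?_) (Finset.sum_le_sum_of_subset_of_nonneg ?_ fun n hn _ => ?_)
        · rw [Finset.mem_Ioc] at hn
          have hn0 : (0 : ℝ) < n := by exact_mod_cast (by omega : 0 < n)
          have h5 := hM n hn.1.le
          rw [le_div_iff₀ hn0] at h5
          have h6 : (1 : ℝ) / n - 1 / (n + 1) = 1 / (n * (n + 1)) := by
            field_simp
            ring
          rw [h6]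
          calc μ * ((1 : ℝ) / (n + 1)) = (μ * n) * (1 / (n * (n + 1))) := by field_simp
            _ ≤ N A n * (1 / (n * (n + 1))) := mul_le_mul_of_nonneg_right h5 (by positivity)
        · intro n hn
          rw [Finset.mem_Ioc] at hn
          rw [Finset.mem_Icc]
          omega
        · rw [Finset.mem_Icc] at hn
          have hn0 : (0 : ℝ) < n := by exact_mod_cast (by omega : 0 < n)
          have h6 : (1 : ℝ) / n - 1 / (n + 1) = 1 / (n * (n + 1)) := by
            field_simp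
            ring
          rw [h6]
          positivity
      rw [Finset.mul_sum]
      have h7 : (0 : ℝ) ≤ N A x / (x + 1) := by positivity
      linarith
    have h4 : Real.log x - (1 + Real.log (M + 1)) ≤ ∑ n ∈ Ioc M x, (1 : ℝ) / (n + 1) := by
      have e : ∀ z : ℕ, (harmonic z : ℝ) = ∑ n ∈ Icc 1 z, (1 : ℝ) / n := by
        intro z
        rw [harmonic_eq_sum_Icc]
        push_cast
        refine Finset.sum_congr rfl fun n _ => ?_
        rw [one_div]
      have h5 : (harmonic (M + 1) : ℝ) ≤ 1 + Real.log (M + 1 : ℕ) := harmonic_le_one_add_log (M + 1)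
      have h6 : Real.log (x + 1 + 1 : ℕ) ≤ (harmonic (x + 1) : ℝ) := log_add_one_le_harmonic (x + 1)
      have h7 : Real.log x ≤ Real.log (x + 1 + 1 : ℕ) := by
        refine Real.log_le_log (by exact_mod_cast (by omega : 0 < x)) ?_
        push_cast
        linarith
      have h8 : (harmonic (x + 1) : ℝ) = harmonic (M + 1) + ∑ n ∈ Ioc M x, (1 : ℝ) / (n + 1) := by
        rw [e, e]
        have h9 : ∑ n ∈ Ioc M x, (1 : ℝ) / (n + 1) = ∑ n ∈ Ioc (M + 1) (x + 1), (1 : ℝ) / n := by
          have := Finset.sum_bij (s := Ioc M x) (t := Ioc (M + 1) (x + 1))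
            (f := fun n : ℕ => (1 : ℝ) / (n + 1)) (g := fun n : ℕ => (1 : ℝ) / n)
            (fun n _ => n + 1) (fun n hn => by
              rw [Finset.mem_Ioc] at hn ⊢
              omega) (fun a _ b _ hab => by omega) (fun b hb => by
              rw [Finset.mem_Ioc] at hb
              exact ⟨b - 1, by rw [Finset.mem_Ioc]; omega, by omega⟩) (fun n _ => by
              push_cast
              rfl)
          exact this
        rw [h9, ← Finset.sum_union]
        · congr 1
          ext n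
          simp only [Finset.mem_Icc, Finset.mem_union, Finset.mem_Ioc]
          omega
        · rw [Finset.disjoint_left]
          intro n hn hn2
          rw [Finset.mem_Icc] at hn
          rw [Finset.mem_Ioc] at hn2
          omega
      push_cast at h5 h6 h7 h8 ⊢
      linarith
    rw [le_div_iff₀ hl]
    refine le_trans ?_ h3
    calc (μ - μ * (1 + Real.log (M + 1)) * (1 / Real.log x)) * Real.log x
        = μ * (Real.log x - (1 + Real.log (M + 1))) := by field_simp
      _ ≤ _ := mul_le_mul_of_nonneg_left h4 hμ0.le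
  have h3 : Tendsto (fun x : ℕ => μ - μ * (1 + Real.log (M + 1)) * (1 / Real.log x)) atTop
      (𝓝 (μ - μ * (1 + Real.log (M + 1)) * 0)) :=
    tendsto_const_nhds.sub (tendsto_const_nhds.mul (tendsto_nhdsWithin_iff.1 tendsto_u).1)
  rw [mul_zero, sub_zero] at h3
  exact le_of_tendsto_of_tendsto h3 h1 h2

open Classical in
/-- **Davenport–Erdős theorem for sets closed under multiplication by coprime integers.** -/
theorem general (S : Set ℕ) (c : ℕ → ℕ) (K : ℕ)
    (hc : ∀ d ∈ S, 1 ≤ d ∧ c d ≠ 0 ∧ c d ≤ d ^ K)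
    (hS : ∀ d ∈ S, ∀ m, m ≠ 0 → Nat.Coprime m (c d) → d * m ∈ S) :
    ∃ δ : ℝ, Tendsto (fun x : ℕ => (∑ n ∈ (Icc 1 x).filter (· ∈ S), (1 : ℝ) / n) / Real.log x)
      atTop (𝓝 δ) ∧
      liminf (fun x : ℕ => (((Icc 1 x).filter (· ∈ S)).card : ℝ) / x) atTop = δ ∧
      (∀ μ, (∀ᶠ x : ℕ in atTop, μ ≤ (N S x : ℝ) / x) → μ ≤ δ) ∧
      (∀ μ < δ, ∃ F : Finset ℕ, (F : Set ℕ) ⊆ S ∧ ∃ ν, μ < ν ∧
        Tendsto (fun x : ℕ => (N (cl F c) x : ℝ) / x) atTop (𝓝 ν)) := by
  obtain ⟨δ, h1, h2, h3⟩ := core S c K hc hS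
  refine ⟨δ, log_density S h1, ?_, fun μ hμ => lower_le S h1 hμ, h3⟩
  have hb1 : ∀ x : ℕ, (0 : ℝ) ≤ (N S x : ℝ) / x := fun x => by positivity
  have hb2 : ∀ x : ℕ, (N S x : ℝ) / x ≤ 1 := fun x => by
    refine div_le_one_of_le₀ ?_ (Nat.cast_nonneg _)
    exact_mod_cast N_le _ _
  change liminf (fun x : ℕ => (N S x : ℝ) / x) atTop = δ
  have hbdd : IsBoundedUnder (· ≥ ·) atTop (fun x : ℕ => (N S x : ℝ) / x) :=
    isBoundedUnder_of ⟨0, hb1⟩
  have hcobdd : IsCoboundedUnder (· ≥ ·) atTop (fun x : ℕ => (N S x : ℝ) / x) :=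
    (isBoundedUnder_of ⟨1, hb2⟩ : IsBoundedUnder (· ≤ ·) atTop _).isCoboundedUnder_ge
  refine le_antisymm ?_ ?_
  · refine le_of_forall_lt fun μ hμ => ?_
    obtain ⟨ν, hν1, hν2⟩ := exists_between hμ
    have h3 : ∀ᶠ x : ℕ in atTop, ν < (N S x : ℝ) / x := eventually_lt_of_lt_liminf hν2 hbdd
    exact hν1.trans_le (lower_le S h1 (h3.mono fun x hx => hx.le))
  · refine le_of_forall_lt fun μ hμ => ?_
    obtain ⟨ν, hν1, hν2⟩ := exists_between hμ
    refine hν1.trans_le (le_liminf_of_le hcobdd ?_)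
    exact (h2 ν hν2).mono fun x hx => hx.le

end Pool.Agent.Helper54.SigmaDens
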