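import Pool.Agent.Helper54.SigmaDens.Density

/-!
# Karamata's Tauberian theorem for subsets of `ℕ`
-/

namespace Pool.Agent.Helper54.SigmaDens

open Finset Filter Topology

/-- The signed weights `1_A(n) - δ`. -/
noncomputable def sg (A : Set ℕ) (δ : ℝ) (n : ℕ) : ℝ :=
  (Set.indicator A (fun _ => (1 : ℝ)) n) - δ

lemma abs_sg_le (A : Set ℕ) (δ : ℝ) (n : ℕ) : |sg A δ n| ≤ 1 + |δ| := by
  classical
  rw [sg, Set.indicator_apply]
  split_ifs
  · calc |1 - δ| ≤ |(1 : ℝ)| + |δ| := abs_sub _ _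
      _ = 1 + |δ| := by rw [abs_one]
  · rw [zero_sub, abs_neg]
    linarith

/-- The functional `u ∑ (1_A(n) - δ) n^{-1-u} g(n^{-u})`. -/
noncomputable def psi (A : Set ℕ) (δ u : ℝ) (g : ℝ → ℝ) : ℝ :=
  u * ∑' n : ℕ, sg A δ n * (n : ℝ) ^ (-(1 + u)) * g ((n : ℝ) ^ (-u))

lemma summable_psi (A : Set ℕ) (δ : ℝ) {u : ℝ} (hu : 0 < u) {g : ℝ → ℝ} {C : ℝ}
    (hg : ∀ t ∈ Set.Icc (0 : ℝ) 1, |g t| ≤ C) :
    Summable (fun n : ℕ => sg A δ n * (n : ℝ) ^ (-(1 + u)) * g ((n : ℝ) ^ (-u))) := by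
  have hC : 0 ≤ C := (abs_nonneg _).trans (hg 0 (by simp))
  refine Summable.of_norm_bounded (g := fun n : ℕ => (1 + |δ|) * C * (n : ℝ) ^ (-(1 + u)))
    ((summable_pow (by linarith)).mul_left _) fun n => ?_
  rcases eq_or_ne n 0 with rfl | hn
  · rw [zero_pow_neg (by linarith)]
    simp
  rw [norm_mul, norm_mul, Real.norm_eq_abs, Real.norm_eq_abs, Real.norm_eq_abs,
    abs_of_nonneg (Real.rpow_nonneg (Nat.cast_nonneg n) _)]
  have h1 := abs_sg_le A δ n
  have h2 : |g ((n : ℝ) ^ (-u))| ≤ C := hg _ ⟨Real.rpow_nonneg (Nat.cast_nonneg _) _,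
    rpow_neg_le_one hu.le (Nat.pos_of_ne_zero hn)⟩
  have h3 : 0 ≤ (n : ℝ) ^ (-(1 + u)) := Real.rpow_nonneg (Nat.cast_nonneg n) _
  calc |sg A δ n| * (n : ℝ) ^ (-(1 + u)) * |g ((n : ℝ) ^ (-u))|
      ≤ (1 + |δ|) * (n : ℝ) ^ (-(1 + u)) * C := by
        apply mul_le_mul _ h2 (abs_nonneg _) (by positivity)
        exact mul_le_mul_of_nonneg_right h1 h3
    _ = _ := by ring

lemma abs_psi_le (A : Set ℕ) (δ : ℝ) {u : ℝ} (hu : 0 < u) {g : ℝ → ℝ} {C : ℝ}
    (hg : ∀ t ∈ Set.Icc (0 : ℝ) 1, |g t| ≤ C) :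
    |psi A δ u g| ≤ (1 + |δ|) * C * (u * Z (1 + u)) := by
  have hC : 0 ≤ C := (abs_nonneg _).trans (hg 0 (by simp))
  have hs := (summable_pow (show 1 < 1 + u by linarith)).mul_left ((1 + |δ|) * C)
  have h1 : |∑' n : ℕ, sg A δ n * (n : ℝ) ^ (-(1 + u)) * g ((n : ℝ) ^ (-u))| ≤
      (1 + |δ|) * C * Z (1 + u) := by
    rw [Z, ← tsum_mul_left, ← Real.norm_eq_abs]
    refine tsum_of_norm_bounded hs.hasSum fun n => ?_
    rcases eq_or_ne n 0 with rfl | hn
    · rw [zero_pow_neg (by linarith)]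
      simp
    rw [norm_mul, norm_mul, Real.norm_eq_abs, Real.norm_eq_abs, Real.norm_eq_abs,
      abs_of_nonneg (Real.rpow_nonneg (Nat.cast_nonneg n) _)]
    have h1 := abs_sg_le A δ n
    have h2 : |g ((n : ℝ) ^ (-u))| ≤ C := hg _ ⟨Real.rpow_nonneg (Nat.cast_nonneg _) _,
      rpow_neg_le_one hu.le (Nat.pos_of_ne_zero hn)⟩
    have h3 : 0 ≤ (n : ℝ) ^ (-(1 + u)) := Real.rpow_nonneg (Nat.cast_nonneg n) _
    calc |sg A δ n| * (n : ℝ) ^ (-(1 + u)) * |g ((n : ℝ) ^ (-u))|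
        ≤ (1 + |δ|) * (n : ℝ) ^ (-(1 + u)) * C := by
          apply mul_le_mul _ h2 (abs_nonneg _) (by positivity)
          exact mul_le_mul_of_nonneg_right h1 h3
      _ = _ := by ring
  rw [psi, abs_mul, abs_of_pos hu]
  calc u * |∑' n : ℕ, sg A δ n * (n : ℝ) ^ (-(1 + u)) * g ((n : ℝ) ^ (-u))| ≤
      u * ((1 + |δ|) * C * Z (1 + u)) := mul_le_mul_of_nonneg_left h1 hu.le
    _ = _ := by ring

lemma psi_add (A : Set ℕ) (δ : ℝ) {u : ℝ} (hu : 0 < u) {g h : ℝ → ℝ} {C C' : ℝ}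
    (hg : ∀ t ∈ Set.Icc (0 : ℝ) 1, |g t| ≤ C) (hh : ∀ t ∈ Set.Icc (0 : ℝ) 1, |h t| ≤ C') :
    psi A δ u (fun t => g t + h t) = psi A δ u g + psi A δ u h := by
  rw [psi, psi, psi, ← mul_add, ← (summable_psi A δ hu hg).tsum_add (summable_psi A δ hu hh)]
  congr 1
  refine tsum_congr fun n => ?_
  ring

lemma psi_const_mul (A : Set ℕ) (δ u a : ℝ) (g : ℝ → ℝ) :
    psi A δ u (fun t => a * g t) = a * psi A δ u g := by
  have h : ∀ n : ℕ, sg A δ n * (n : ℝ) ^ (-(1 + u)) * (a * g ((n : ℝ) ^ (-u))) =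
      a * (sg A δ n * (n : ℝ) ^ (-(1 + u)) * g ((n : ℝ) ^ (-u))) := fun n => by ring
  rw [psi, psi, tsum_congr h, tsum_mul_left]
  ring

lemma poly_bdd (p : Polynomial ℝ) : ∃ C, ∀ t ∈ Set.Icc (0 : ℝ) 1, |p.eval t| ≤ C := by
  have hK : IsCompact (Set.Icc (0 : ℝ) 1) := isCompact_Icc
  have hf : ContinuousOn (fun t : ℝ => p.eval t) (Set.Icc (0 : ℝ) 1) := p.continuous.continuousOn
  obtain ⟨C, hC⟩ := hK.exists_bound_of_continuousOn hf
  exact ⟨C, hC⟩

lemma tendsto_psi_pow (A : Set ℕ) {δ : ℝ}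
    (h : Tendsto (fun s : ℝ => (s - 1) * Fs A s) (𝓝[>] 1) (𝓝 δ)) (k : ℕ) :
    Tendsto (fun u : ℝ => psi A δ u (fun t => t ^ k)) (𝓝[>] 0) (𝓝 0) := by
  classical
  have hk : (0 : ℝ) < (k : ℝ) + 1 := by positivity
  have ht : Tendsto (fun u : ℝ => 1 + (k + 1) * u) (𝓝[>] 0) (𝓝[>] 1) := by
    refine tendsto_nhdsWithin_iff.2 ⟨?_, ?_⟩
    · have : Continuous fun u : ℝ => 1 + ((k : ℝ) + 1) * u := by fun_prop
      have h1 := this.tendsto 0
      simp only [mul_zero, add_zero] at h1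
      exact h1.mono_left nhdsWithin_le_nhds
    · filter_upwards [self_mem_nhdsWithin] with u hu
      simp only [Set.mem_Ioi] at hu ⊢
      have : 0 < ((k : ℝ) + 1) * u := by positivity
      linarith
  have h1 := (h.comp ht).sub ((tendsto_Z.comp ht).const_mul δ)
  have h2 := h1.const_mul (1 / ((k : ℝ) + 1))
  simp only [mul_one, sub_self, mul_zero] at h2
  refine h2.congr' ?_
  filter_upwards [self_mem_nhdsWithin] with u hu
  simp only [Set.mem_Ioi] at hu
  have hs : 1 < 1 + ((k : ℝ) + 1) * u := by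
    have : 0 < ((k : ℝ) + 1) * u := by positivity
    linarith
  simp only [Function.comp_apply, add_sub_cancel_left]
  have h3 : psi A δ u (fun t => t ^ k) =
      u * (Fs A (1 + (k + 1) * u) - δ * Z (1 + (k + 1) * u)) := by
    rw [psi, Fs, Z]
    congr 1
    rw [← tsum_mul_left, ← (summable_Fs A hs).tsum_sub ((summable_pow hs).mul_left δ)]
    refine tsum_congr fun n => ?_
    rcases eq_or_ne n 0 with rfl | hn
    · rw [zero_pow_neg hs, zero_pow_neg (by linarith)]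
      simp
    have hn0 : (0 : ℝ) < n := by exact_mod_cast Nat.pos_of_ne_zero hn
    have h4 : (n : ℝ) ^ (-(1 + u)) * ((n : ℝ) ^ (-u)) ^ k = (n : ℝ) ^ (-(1 + (k + 1) * u)) := by
      rw [← Real.rpow_natCast, ← Real.rpow_mul hn0.le, ← Real.rpow_add hn0]
      congr 1
      ring
    rw [mul_assoc, h4, sg, Set.indicator_apply]
    split_ifs <;> ring
  rw [h3]
  field_simp

lemma tendsto_psi_poly (A : Set ℕ) {δ : ℝ}
    (h : Tendsto (fun s : ℝ => (s - 1) * Fs A s) (𝓝[>] 1) (𝓝 δ)) (p : Polynomial ℝ) :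
    Tendsto (fun u : ℝ => psi A δ u (fun t => p.eval t)) (𝓝[>] 0) (𝓝 0) := by
  induction p using Polynomial.induction_on' with
  | add p q hp hq =>
    obtain ⟨C, hC⟩ := poly_bdd p
    obtain ⟨C', hC'⟩ := poly_bdd q
    have := hp.add hq
    rw [add_zero] at this
    refine this.congr' ?_
    filter_upwards [self_mem_nhdsWithin] with u hu
    rw [← psi_add A δ hu hC hC']
    simp
  | monomial n a =>
    have := (tendsto_psi_pow A h n).const_mul a
    rw [mul_zero] at this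
    refine this.congr fun u => ?_
    rw [← psi_const_mul]
    simp

lemma tendsto_psi_cont (A : Set ℕ) {δ : ℝ}
    (h : Tendsto (fun s : ℝ => (s - 1) * Fs A s) (𝓝[>] 1) (𝓝 δ)) {g : ℝ → ℝ}
    (hg : ContinuousOn g (Set.Icc 0 1)) :
    Tendsto (fun u : ℝ => psi A δ u g) (𝓝[>] 0) (𝓝 0) := by
  rw [Metric.tendsto_nhds]
  intro ε hε
  have hδ : 0 < 1 + |δ| := by positivity
  set η := ε / (4 * (1 + |δ|)) with hη
  have hη0 : 0 < η := by positivity
  obtain ⟨p, hp⟩ := exists_polynomial_near_of_continuousOn 0 1 g hg η hη0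
  obtain ⟨C, hC⟩ := poly_bdd p
  have hd : ∀ t ∈ Set.Icc (0 : ℝ) 1, |g t - p.eval t| ≤ η := by
    intro t ht
    rw [abs_sub_comm]
    exact (hp t ht).le
  have h1 := tendsto_psi_poly A h p
  rw [Metric.tendsto_nhds] at h1
  have ht : Tendsto (fun u : ℝ => 1 + u) (𝓝[>] 0) (𝓝[>] 1) := by
    refine tendsto_nhdsWithin_iff.2 ⟨?_, ?_⟩
    · have : Continuous fun u : ℝ => 1 + u := by fun_prop
      have h1 := this.tendsto 0
      simp only [add_zero] at h1
      exact h1.mono_left nhdsWithin_le_nhds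
    · filter_upwards [self_mem_nhdsWithin] with u hu
      simp only [Set.mem_Ioi] at hu ⊢
      linarith
  have h2 : ∀ᶠ u in 𝓝[>] (0 : ℝ), u * Z (1 + u) < 3 / 2 := by
    filter_upwards [(tendsto_Z.comp ht).eventually (gt_mem_nhds (show (1 : ℝ) < 3 / 2 by norm_num))]
      with u hu
    simpa using hu
  filter_upwards [h1 (ε / 2) (by positivity), h2, self_mem_nhdsWithin] with u h3 h4 h5
  simp only [Set.mem_Ioi] at h5
  rw [Real.dist_eq, sub_zero] at h3 ⊢
  have h6 : psi A δ u g = psi A δ u (fun t => p.eval t) + psi A δ u (fun t => g t - p.eval t) := by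
    rw [← psi_add A δ h5 hC hd]
    congr 1
    funext t
    ring
  have h7 := abs_psi_le A δ h5 hd
  have h8 : (1 + |δ|) * η * (u * Z (1 + u)) ≤ (1 + |δ|) * η * (3 / 2) :=
    mul_le_mul_of_nonneg_left h4.le (by positivity)
  have h9 : (1 + |δ|) * η * (3 / 2) = 3 / 8 * ε := by
    rw [hη]
    field_simp
    ring
  rw [h6]
  refine (abs_add_le _ _).trans_lt ?_
  linarith

/-- The cut-off function: `1/t` for `t ≥ e^{-1}`, zero for `t ≤ e^{-(1+η)}`. -/
noncomputable def cut (η t : ℝ) : ℝ :=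
  (1 / max t (Real.exp (-1))) *
    max 0 (min 1 ((t - Real.exp (-(1 + η))) / (Real.exp (-1) - Real.exp (-(1 + η)))))

lemma continuous_cut (η : ℝ) : Continuous (cut η) := by
  unfold cut
  refine Continuous.mul ?_ (by fun_prop)
  refine Continuous.div continuous_const (by fun_prop) fun t => ?_
  exact (lt_of_lt_of_le (Real.exp_pos _) (le_max_right _ _)).ne'

lemma cut_of_ge {η t : ℝ} (hη : 0 < η) (ht : Real.exp (-1) ≤ t) : cut η t = 1 / t := by
  have h1 : Real.exp (-(1 + η)) < Real.exp (-1) := Real.exp_lt_exp.2 (by linarith)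
  have h2 : 1 ≤ (t - Real.exp (-(1 + η))) / (Real.exp (-1) - Real.exp (-(1 + η))) := by
    rw [le_div_iff₀ (by linarith)]
    linarith
  rw [cut, max_eq_left ht, min_eq_left h2]
  simp

lemma cut_of_le {η t : ℝ} (hη : 0 < η) (ht : t ≤ Real.exp (-(1 + η))) : cut η t = 0 := by
  have h1 : Real.exp (-(1 + η)) < Real.exp (-1) := Real.exp_lt_exp.2 (by linarith)
  have h2 : (t - Real.exp (-(1 + η))) / (Real.exp (-1) - Real.exp (-(1 + η))) ≤ 0 :=
    div_nonpos_of_nonpos_of_nonneg (by linarith) (by linarith)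
  rw [cut, min_eq_right (h2.trans zero_le_one), max_eq_left h2, mul_zero]

lemma abs_cut_le (η t : ℝ) : |cut η t| ≤ Real.exp 1 := by
  have h0 : 0 < max t (Real.exp (-1)) := lt_of_lt_of_le (Real.exp_pos _) (le_max_right _ _)
  have h1 : 1 / max t (Real.exp (-1)) ≤ Real.exp 1 := by
    rw [div_le_iff₀ h0]
    calc (1 : ℝ) = Real.exp 1 * Real.exp (-1) := by rw [← Real.exp_add]; simp
      _ ≤ _ := mul_le_mul_of_nonneg_left (le_max_right _ _) (Real.exp_pos _).le
  have h2 : 0 ≤ 1 / max t (Real.exp (-1)) := by positivity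
  have h3 : 0 ≤ max 0 (min 1 ((t - Real.exp (-(1 + η))) / (Real.exp (-1) - Real.exp (-(1 + η))))) :=
    le_max_left _ _
  have h4 : max 0 (min 1 ((t - Real.exp (-(1 + η))) / (Real.exp (-1) - Real.exp (-(1 + η))))) ≤ 1 :=
    max_le zero_le_one (min_le_left _ _)
  rw [cut, abs_of_nonneg (mul_nonneg h2 h3)]
  calc _ ≤ Real.exp 1 * 1 := mul_le_mul h1 h4 h3 (Real.exp_pos _).le
    _ = _ := mul_one _

/-- Harmonic sums. -/
lemma sum_Ioc_inv_le {x y : ℕ} (hx : 1 ≤ x) (hxy : x ≤ y) :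
    ∑ n ∈ Ioc x y, (1 : ℝ) / n ≤ 1 + Real.log y - Real.log x := by
  have h1 : (harmonic y : ℝ) ≤ 1 + Real.log y := harmonic_le_one_add_log y
  have h2 : Real.log (x + 1 : ℕ) ≤ (harmonic x : ℝ) := log_add_one_le_harmonic x
  have h3 : Real.log x ≤ Real.log (x + 1 : ℕ) := by
    refine Real.log_le_log (by exact_mod_cast hx) ?_
    push_cast
    linarith
  have h4 : (harmonic y : ℝ) = (harmonic x : ℝ) + ∑ n ∈ Ioc x y, (1 : ℝ) / n := by
    have e : ∀ z : ℕ, (harmonic z : ℝ) = ∑ n ∈ Icc 1 z, (1 : ℝ) / n := by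
      intro z
      rw [harmonic_eq_sum_Icc]
      push_cast
      refine Finset.sum_congr rfl fun n _ => ?_
      rw [one_div]
    rw [e, e, ← Finset.sum_union]
    · congr 1
      ext n
      simp only [Finset.mem_Icc, Finset.mem_union, Finset.mem_Ioc]
      omega
    · rw [Finset.disjoint_left]
      intro n hn hn2
      rw [Finset.mem_Icc] at hn
      rw [Finset.mem_Ioc] at hn2
      omega
  linarith

lemma tendsto_u : Tendsto (fun x : ℕ => 1 / Real.log x) atTop (𝓝[>] 0) := by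
  refine tendsto_nhdsWithin_iff.2 ⟨?_, ?_⟩
  · simp only [one_div]
    exact tendsto_inv_atTop_zero.comp (Real.tendsto_log_atTop.comp tendsto_natCast_atTop_atTop)
  · filter_upwards [eventually_ge_atTop 2] with x hx
    have : 0 < Real.log x := Real.log_pos (by exact_mod_cast hx)
    simp only [Set.mem_Ioi]
    positivity

/-- **Karamata's theorem for sets**: an analytic density is a logarithmic density. -/
theorem tauber (A : Set ℕ) {δ : ℝ}
    (h : Tendsto (fun s : ℝ => (s - 1) * Fs A s) (𝓝[>] 1) (𝓝 δ)) :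
    Tendsto (fun x : ℕ => (∑ n ∈ Icc 1 x, sg A δ n / n) / Real.log x) atTop (𝓝 0) := by
  rw [Metric.tendsto_nhds]
  intro ε hε
  have hδ : 0 < 1 + |δ| := by positivity
  have he : 0 < Real.exp 1 := Real.exp_pos _
  set η := ε / (4 * ((1 + |δ|) * Real.exp 1)) with hη
  have hη0 : 0 < η := by positivity
  have h1 := (tendsto_psi_cont A h (continuous_cut η).continuousOn).comp tendsto_u
  rw [Metric.tendsto_nhds] at h1
  have h2 : ∀ᶠ x : ℕ in atTop, 1 / Real.log x < η :=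
    (tendsto_nhdsWithin_iff.1 tendsto_u).1.eventually (gt_mem_nhds hη0)
  filter_upwards [h1 (ε / 4) (by positivity), h2, eventually_ge_atTop 2] with x h3 h4 h5
  have hl : 0 < Real.log x := Real.log_pos (by exact_mod_cast h5)
  have hx0 : (0 : ℝ) < x := by exact_mod_cast (by omega : 0 < x)
  set u := 1 / Real.log x with hu
  have hu0 : 0 < u := by positivity
  have hul : u * Real.log x = 1 := by rw [hu]; field_simp
  rw [Function.comp_apply, Real.dist_eq, sub_zero] at h3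
  rw [Real.dist_eq, sub_zero]
  -- the upper cut point
  set y := ⌊(x : ℝ) ^ (1 + η)⌋₊ with hy
  have hxy' : (x : ℝ) ≤ (x : ℝ) ^ (1 + η) := by
    have : (x : ℝ) ^ (1 : ℝ) ≤ (x : ℝ) ^ (1 + η) :=
      Real.rpow_le_rpow_of_exponent_le (by exact_mod_cast (by omega : 1 ≤ x)) (by linarith)
    rwa [Real.rpow_one] at this
  have hxy : x ≤ y := Nat.le_floor hxy'
  have hylog : Real.log y ≤ (1 + η) * Real.log x := by
    rw [← Real.log_rpow hx0]
    refine Real.log_le_log (by exact_mod_cast (by omega : 0 < y)) ?_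
    exact Nat.floor_le (by positivity)
  -- the terms
  have t1 : ∀ n ∈ Icc 1 x, sg A δ n * (n : ℝ) ^ (-(1 + u)) * cut η ((n : ℝ) ^ (-u)) =
      sg A δ n / n := by
    intro n hn
    rw [Finset.mem_Icc] at hn
    have hn0 : (0 : ℝ) < n := by exact_mod_cast hn.1
    have h6 : Real.exp (-1) ≤ (n : ℝ) ^ (-u) := by
      rw [Real.rpow_def_of_pos hn0, Real.exp_le_exp]
      have : Real.log n ≤ Real.log x := Real.log_le_log hn0 (by exact_mod_cast hn.2)
      nlinarith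
    rw [cut_of_ge hη0 h6, neg_add, Real.rpow_add hn0, Real.rpow_neg_one]
    have h7 : (n : ℝ) ^ (-u) ≠ 0 := (Real.rpow_pos_of_pos hn0 _).ne'
    field_simp
  have t2 : ∀ n, n ∉ Icc 1 y → sg A δ n * (n : ℝ) ^ (-(1 + u)) * cut η ((n : ℝ) ^ (-u)) = 0 := by
    intro n hn
    rcases eq_or_ne n 0 with rfl | hn0
    · rw [zero_pow_neg (by linarith)]
      ring
    have hn1 : y < n := by
      by_contra hlt
      exact hn (Finset.mem_Icc.2 ⟨by omega, by omega⟩)
    have hnr : (x : ℝ) ^ (1 + η) < n := (Nat.floor_lt (by positivity)).1 hn1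
    have hnp : (0 : ℝ) < n := by exact_mod_cast (by omega : 0 < n)
    rw [cut_of_le hη0, mul_zero]
    rw [Real.rpow_def_of_pos hnp, Real.exp_le_exp]
    have h8 : (1 + η) * Real.log x ≤ Real.log n := by
      rw [← Real.log_rpow hx0]
      exact Real.log_le_log (by positivity) hnr.le
    nlinarith
  have t3 : ∀ n ∈ Ioc x y, |sg A δ n * (n : ℝ) ^ (-(1 + u)) * cut η ((n : ℝ) ^ (-u))| ≤
      ((1 + |δ|) * Real.exp 1) * (1 / n) := by
    intro n hn
    rw [Finset.mem_Ioc] at hn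
    have hn1 : (1 : ℝ) ≤ n := by exact_mod_cast (by omega : 1 ≤ n)
    have h6 : (n : ℝ) ^ (-(1 + u)) ≤ 1 / n := by
      rw [one_div, ← Real.rpow_neg_one]
      exact Real.rpow_le_rpow_of_exponent_le hn1 (by linarith)
    have h7 : 0 ≤ (n : ℝ) ^ (-(1 + u)) := Real.rpow_nonneg (by linarith) _
    rw [abs_mul, abs_mul, abs_of_nonneg h7]
    calc |sg A δ n| * (n : ℝ) ^ (-(1 + u)) * |cut η ((n : ℝ) ^ (-u))|
        ≤ ((1 + |δ|) * (1 / n)) * Real.exp 1 := by
          apply mul_le_mul _ (abs_cut_le _ _) (abs_nonneg _) (by positivity)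
          exact mul_le_mul (abs_sg_le A δ n) h6 h7 hδ.le
      _ = _ := by ring
  have h6 : psi A δ u (cut η) = u * (∑ n ∈ Icc 1 x, sg A δ n / n) +
      u * ∑ n ∈ Ioc x y, sg A δ n * (n : ℝ) ^ (-(1 + u)) * cut η ((n : ℝ) ^ (-u)) := by
    rw [psi, tsum_eq_sum (s := Icc 1 y) (fun n hn => t2 n hn), ← mul_add]
    congr 1
    rw [← Finset.sum_congr rfl t1, ← Finset.sum_union]
    · congr 1
      ext n
      simp only [Finset.mem_Icc, Finset.mem_union, Finset.mem_Ioc]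
      omega
    · rw [Finset.disjoint_left]
      intro n hn hn2
      rw [Finset.mem_Icc] at hn
      rw [Finset.mem_Ioc] at hn2
      omega
  have h7 : |u * ∑ n ∈ Ioc x y, sg A δ n * (n : ℝ) ^ (-(1 + u)) * cut η ((n : ℝ) ^ (-u))| ≤
      ((1 + |δ|) * Real.exp 1) * (u + η) := by
    rw [abs_mul, abs_of_pos hu0]
    have h8 : |∑ n ∈ Ioc x y, sg A δ n * (n : ℝ) ^ (-(1 + u)) * cut η ((n : ℝ) ^ (-u))| ≤
        ((1 + |δ|) * Real.exp 1) * (1 + η * Real.log x) := by
      refine (Finset.abs_sum_le_sum_abs _ _).trans ((Finset.sum_le_sum t3).trans ?_)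
      rw [← Finset.mul_sum]
      refine mul_le_mul_of_nonneg_left ?_ (by positivity)
      have := sum_Ioc_inv_le (by omega : 1 ≤ x) hxy
      linarith
    calc _ ≤ u * (((1 + |δ|) * Real.exp 1) * (1 + η * Real.log x)) :=
          mul_le_mul_of_nonneg_left h8 hu0.le
      _ = ((1 + |δ|) * Real.exp 1) * (u + η * (u * Real.log x)) := by ring
      _ = _ := by rw [hul, mul_one]
  have h8 : ((1 + |δ|) * Real.exp 1) * (u + η) ≤ ε / 2 := by
    calc ((1 + |δ|) * Real.exp 1) * (u + η) ≤ ((1 + |δ|) * Real.exp 1) * (η + η) :=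
          mul_le_mul_of_nonneg_left (by linarith) (by positivity)
      _ = ε / 2 := by rw [hη]; field_simp; ring
  have h9 : (∑ n ∈ Icc 1 x, sg A δ n / n) / Real.log x = psi A δ u (cut η) -
      u * ∑ n ∈ Ioc x y, sg A δ n * (n : ℝ) ^ (-(1 + u)) * cut η ((n : ℝ) ^ (-u)) := by
    rw [h6, hu]
    ring
  rw [h9]
  refine (abs_sub _ _).trans_lt ?_
  linarith

end Pool.Agent.Helper54.SigmaDens
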